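import Pool.Agent.H2.DG.Poset

/-!
# The Δ-system argument
-/

open Set Ordinal Cardinal

namespace H2.DG
open H85.Forcing (K exists_lt_omega1)

/-- traces -/
abbrev Tr : Type 1 := Set K × Set K × Set (K × K) × Set (Set K) × Set K

/-- the traces that live below `δ` -/
def TrBelow (δ : K) : Set Tr :=
  (𝒫 (Iio δ)) ×ˢ ((𝒫 (Iio δ)) ×ˢ ((𝒫 (Iio δ ×ˢ Iio δ)) ×ˢ ((𝒫 (𝒫 (Iio δ))) ×ˢ (𝒫 (Iio δ)))))

instance small_TrBelow (δ : K) : Small.{0} (TrBelow δ) := by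
  have h1 : Small.{0} (Iio δ : Set K) := Ordinal.small_Iio δ
  have h2 : Small.{0} (𝒫 (Iio δ : Set K)) := small_powerset _
  have h3 : Small.{0} (Iio δ ×ˢ Iio δ : Set (K × K)) := inferInstance
  have h4 : Small.{0} (𝒫 (Iio δ ×ˢ Iio δ : Set (K × K))) := small_powerset _
  have h5 : Small.{0} (𝒫 (𝒫 (Iio δ : Set K))) := small_powerset _
  unfold TrBelow
  infer_instance

theorem TrBelow_mono {δ ε : K} (h : δ ≤ ε) : TrBelow δ ⊆ TrBelow ε := by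
  have h0 : (Iio δ : Set K) ⊆ Iio ε := Iio_subset_Iio h
  have h1 : 𝒫 (Iio δ : Set K) ⊆ 𝒫 (Iio ε) := powerset_mono.2 h0
  exact prod_mono h1 (prod_mono h1 (prod_mono (powerset_mono.2 (prod_mono h0 h0))
    (prod_mono (powerset_mono.2 h1) h1)))

/-- the trace of `(p, ξ)` below `β` -/
def trace (p : Cond) (ξ β : K) : Tr :=
  (p.C ∩ Iio β, p.E ∩ Iio β, {x | x.1 < β ∧ x.2 < β ∧ x.2 ∈ p.b x.1},
    {s | ∃ η ∈ p.E, s = p.b η ∩ Iio β}, p.b ξ ∩ Iio β)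

theorem trace_mem {p : Cond} {ξ β δ : K} (hC : p.C ∩ Iio β ⊆ Iio δ) (hE : p.E ∩ Iio β ⊆ Iio δ) :
    trace p ξ β ∈ TrBelow δ := by
  have hb : ∀ η, p.b η ∩ Iio β ⊆ Iio δ := fun η =>
    (inter_subset_inter_left _ (p.b_sub η)).trans hC
  refine ⟨hC, hE, ?_, ?_, hb ξ⟩
  · rintro ⟨η, γ⟩ ⟨h1, h2, h3⟩
    exact ⟨hE ⟨p.mem_E_of_mem h3, h1⟩, hb η ⟨h3, h2⟩⟩
  · rintro _ ⟨η, _, rfl⟩
    exact hb η

/-- the closure argument: some trace occurs unboundedly often -/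
theorem exists_trace (P : K → Cond) (ξ : K → K) :
    ∃ t, ∀ B : K, ∃ β, B < β ∧ trace (P β) (ξ β) β = t := by
  classical
  by_contra hcon
  push Not at hcon
  choose B hB using hcon
  -- `G δ` bounds `B t` for all `t` below `δ`
  have hG : ∀ δ : K, ∃ g : K, ∀ t ∈ TrBelow δ, B t < g := by
    intro δ
    have : Small.{0} (B '' TrBelow δ) := inferInstance
    obtain ⟨b, hb⟩ := Ordinal.bddAbove_iff_small.2 this
    exact ⟨b + 1, fun t ht => Order.lt_add_one_iff.2 (hb ⟨t, ht, rfl⟩)⟩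
  choose G hG using hG
  let D : K → K := WellFoundedLT.fix fun i ih =>
    ⨆ j : {j : K // j < i}, (max (G (ih j.1 j.2)) (ih j.1 j.2) + 1)
  have hD : ∀ i, D i = ⨆ j : {j : K // j < i}, (max (G (D j.1)) (D j.1) + 1) :=
    fun i => WellFoundedLT.fix_eq _ i
  have hsm : ∀ i : K, Small.{0} {j : K // j < i} := fun i => Ordinal.small_Iio i
  have hD1 : ∀ i j, j < i → max (G (D j)) (D j) < D i := by
    intro i j hj
    have := hsm i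
    rw [hD i]
    have h1 : max (G (D j)) (D j) + 1 ≤ ⨆ j : {j : K // j < i}, (max (G (D j.1)) (D j.1) + 1) :=
      Ordinal.le_iSup (fun j : {j : K // j < i} => max (G (D j.1)) (D j.1) + 1) ⟨j, hj⟩
    exact (Order.lt_add_one_iff.2 le_rfl).trans_le h1
  have hmono : ∀ i j, j ≤ i → D j ≤ D i := by
    intro i j hj
    rcases hj.eq_or_lt with h | h
    · rw [h]
    · exact ((le_max_right _ _).trans_lt (hD1 i j h)).le
  have hlim : ∀ x < D ω₁, ∃ i < (ω₁ : K), x < D i := by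
    intro x hx
    have := hsm ω₁
    rw [hD ω₁, Ordinal.lt_iSup_iff] at hx
    obtain ⟨⟨j, hj⟩, hx⟩ := hx
    have hj1 : j + 1 < (ω₁ : K) := (Cardinal.isSuccLimit_omega 1).add_one_lt hj
    refine ⟨j + 1, hj1, ?_⟩
    exact (Order.lt_add_one_iff.1 hx).trans_lt (hD1 (j + 1) j (Order.lt_add_one_iff.2 le_rfl))
  set δ := D ω₁ with hδ
  have hct : ((P δ).C ∩ Iio δ ∪ (P δ).E ∩ Iio δ).Countable :=
    ((P δ).ctC.mono inter_subset_left).union ((P δ).ctE.mono inter_subset_left)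
  have : Countable ((P δ).C ∩ Iio δ ∪ (P δ).E ∩ Iio δ : Set K) := hct.to_subtype
  have h1 : ∀ x : ((P δ).C ∩ Iio δ ∪ (P δ).E ∩ Iio δ : Set K), ∃ i < (ω₁ : K), x.1 < D i := by
    rintro ⟨x, hx⟩
    exact hlim x (hx.elim (fun h => h.2) (fun h => h.2))
  choose i hi1 hi2 using h1
  obtain ⟨b, hb, hb2⟩ := exists_lt_omega1 i hi1
  have h2 : ∀ x ∈ ((P δ).C ∩ Iio δ ∪ (P δ).E ∩ Iio δ : Set K), x < D b := by
    intro x hx
    exact (hi2 ⟨x, hx⟩).trans_le (hmono b _ (hb2 ⟨x, hx⟩).le)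
  have h3 : trace (P δ) (ξ δ) δ ∈ TrBelow (D b) :=
    trace_mem (fun x hx => h2 x (Or.inl hx)) (fun x hx => h2 x (Or.inr hx))
  have h4 : B (trace (P δ) (ξ δ) δ) < δ :=
    ((hG _ _ h3).trans_le (le_max_left _ _)).trans (hD1 ω₁ b hb)
  exact hB _ δ h4 rfl

theorem exists_gt_countable {S : Set K} (hS : S.Countable) : ∃ b : K, ∀ x ∈ S, x < b := by
  have : Small.{0} S := by
    have := hS.to_subtype
    exact Countable.toSmall _
  obtain ⟨b, hb⟩ := Ordinal.bddAbove_iff_small.2 this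
  exact ⟨b + 1, fun x hx => Order.lt_add_one_iff.2 (hb hx)⟩

/-- **The main combinatorial lemma.** -/
theorem exists_pair (P : K → Cond) (ξ : K → K) (hξ : ∀ β, ξ β ∈ (P β).E) (hlt : ∀ β, β < ξ β) :
    ∃ α β, ξ α < β ∧ (∀ γ ∈ (P α).C, γ < β) ∧ ∃ r, r ≤ P α ∧ r ≤ P β ∧
      ∀ γ ∈ (P α).C, γ ∈ r.b (ξ β) ↔ Cut (ξ α : WithTop K) ((P α).b (ξ α)) γ := by
  obtain ⟨t, ht⟩ := exists_trace P ξ
  obtain ⟨α, -, hα⟩ := ht 0
  obtain ⟨B, hB⟩ := exists_gt_countable (S := (P α).C ∪ (P α).E)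
    ((P α).ctC.union (P α).ctE)
  obtain ⟨β, hβ, hβt⟩ := ht (max B (ξ α))
  have hC' : ∀ γ ∈ (P α).C, γ < β := fun γ hγ =>
    (hB γ (Or.inl hγ)).trans ((le_max_left _ _).trans_lt hβ)
  have hE' : ∀ γ ∈ (P α).E, γ < β := fun γ hγ =>
    (hB γ (Or.inr hγ)).trans ((le_max_left _ _).trans_lt hβ)
  have hξα : ξ α < β := (le_max_right _ _).trans_lt hβ
  have e : trace (P α) (ξ α) α = trace (P β) (ξ β) β := hα.trans hβt.symm
  have e1 : (P α).C ∩ Iio α = (P β).C ∩ Iio β := congrArg (fun t : Tr => t.1) e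
  have e2 : (P α).E ∩ Iio α = (P β).E ∩ Iio β := congrArg (fun t : Tr => t.2.1) e
  have e3 : {x : K × K | x.1 < α ∧ x.2 < α ∧ x.2 ∈ (P α).b x.1} =
      {x : K × K | x.1 < β ∧ x.2 < β ∧ x.2 ∈ (P β).b x.1} := congrArg (fun t : Tr => t.2.2.1) e
  have e4 : {s | ∃ η ∈ (P α).E, s = (P α).b η ∩ Iio α} =
      {s | ∃ η ∈ (P β).E, s = (P β).b η ∩ Iio β} := congrArg (fun t : Tr => t.2.2.2.1) e
  have e5 : (P α).b (ξ α) ∩ Iio α = (P β).b (ξ β) ∩ Iio β :=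
    congrArg (fun t : Tr => t.2.2.2.2) e
  -- common coordinates
  have hc : ∀ γ ∈ (P α).C, γ ∈ (P β).C → γ < α ∧ γ < β := by
    intro γ hγ hγ'
    have h1 : γ ∈ (P β).C ∩ Iio β := ⟨hγ', hC' γ hγ⟩
    rw [← e1] at h1
    exact ⟨h1.2, hC' γ hγ⟩
  have hiff : ∀ (s s' : Set K) (γ : K), γ < α → γ < β → s ∩ Iio α = s' ∩ Iio β →
      (γ ∈ s ↔ γ ∈ s') := by
    intro s s' γ h1 h2 h
    constructor
    · intro h3
      have h4 : γ ∈ s ∩ Iio α := ⟨h3, h1⟩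
      rw [h] at h4
      exact h4.1
    · intro h3
      have h4 : γ ∈ s' ∩ Iio β := ⟨h3, h2⟩
      rw [← h] at h4
      exact h4.1
  obtain ⟨r, hr1, hr2, hr3⟩ := Cond.amalg (P α) (P β) (ξ α) (ξ β) (hξ α) (hξ β)
    (fun h => absurd (hE' _ h) (not_lt.2 (hlt β).le))
    (fun γ hγ hγ' => (hc γ hγ hγ').1.trans (hlt α))
    (fun η hη hη' γ hγ hγ' => by
      have h1 : η ∈ (P β).E ∩ Iio β := ⟨hη', hE' η hη⟩
      rw [← e2] at h1
      obtain ⟨h2, h3⟩ := hc γ hγ hγ'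
      constructor
      · intro h
        have h4 : (η, γ) ∈ {x : K × K | x.1 < α ∧ x.2 < α ∧ x.2 ∈ (P α).b x.1} := ⟨h1.2, h2, h⟩
        rw [e3] at h4
        exact h4.2.2
      · intro h
        have h4 : (η, γ) ∈ {x : K × K | x.1 < β ∧ x.2 < β ∧ x.2 ∈ (P β).b x.1} :=
          ⟨hE' η hη, h3, h⟩
        rw [← e3] at h4
        exact h4.2.2)
    (fun η hη => by
      have h1 : (P α).b η ∩ Iio α ∈ {s | ∃ η ∈ (P α).E, s = (P α).b η ∩ Iio α} := ⟨η, hη, rfl⟩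
      rw [e4] at h1
      obtain ⟨ζ, hζ, h2⟩ := h1
      exact ⟨ζ, hζ, fun γ hγ hγ' => hiff _ _ γ (hc γ hγ hγ').1 (hc γ hγ hγ').2 h2⟩)
    (fun η hη => by
      have h1 : (P β).b η ∩ Iio β ∈ {s | ∃ η ∈ (P β).E, s = (P β).b η ∩ Iio β} := ⟨η, hη, rfl⟩
      rw [← e4] at h1
      obtain ⟨ζ, hζ, h2⟩ := h1
      exact ⟨ζ, hζ, fun γ hγ hγ' => hiff _ _ γ (hc γ hγ hγ').1 (hc γ hγ hγ').2 h2.symm⟩)
    (fun γ hγ hγ' => hiff _ _ γ (hc γ hγ hγ').1 (hc γ hγ hγ').2 e5)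
  exact ⟨α, β, hξα, hC', r, hr1, hr2, hr3⟩

end H2.DG
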