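import Pool.Agent.H2.DG.TopLos

/-!
# `ω` and countable sets in the Boolean-valued universe
-/

universe u

open Ordinal

namespace H2.DG
open H85.Forcing H85.Forcing.BN

variable {B : Type u} [CompleteBooleanAlgebra B]

theorem natN_beq_ordN (n : ℕ) : beq (natN n : BN B) (ordN (ULift.up.{u} n)) = ⊤ := by
  have key : ∀ n : ℕ, ∀ z : BN B, mem z (natN n) = mem z (ordN (ULift.up.{u} n)) := by
    intro n
    induction n with
    | zero =>
      intro z
      have h1 : mem z (natN 0 : BN B) = ⊥ := mem_emp z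
      rw [h1, mem_ordN, eq_comm, iSup_eq_bot]
      rintro ⟨⟨j⟩, hj⟩
      exact absurd hj (Nat.not_lt_zero j)
    | succ n ih =>
      intro z
      have h1 : mem z (natN (n + 1) : BN B) = mem z (natN n) ⊔ beq z (natN n) := mem_succN z _
      have h2 : beq (natN n : BN B) (ordN (ULift.up.{u} n)) = ⊤ :=
        top_le_iff.1 (beq_of_forall (fun z => by rw [ih z]; simp) (fun z => by rw [ih z]; simp))
      have h3 : beq z (natN n) = beq z (ordN (ULift.up.{u} n)) := by
        apply le_antisymm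
        · exact btrans le_rfl (by rw [h2]; exact le_top)
        · exact btrans le_rfl (bsymm (by rw [h2]; exact le_top))
      rw [h1, ih z, h3, mem_ordN, mem_ordN]
      apply le_antisymm
      · refine sup_le (iSup_le ?_) ?_
        · rintro ⟨j, hj⟩
          have hj' : j < ULift.up.{u} (n + 1) := lt_trans hj (Nat.lt_succ_self n)
          exact le_iSup (fun j : {j : ULift.{u} ℕ // j < ULift.up.{u} (n + 1)} =>
            beq z (ordN j.1)) ⟨j, hj'⟩
        · exact le_iSup (fun j : {j : ULift.{u} ℕ // j < ULift.up.{u} (n + 1)} =>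
            beq z (ordN j.1)) ⟨ULift.up n, Nat.lt_succ_self n⟩
      · refine iSup_le ?_
        rintro ⟨⟨j⟩, hj⟩
        have hj' : j < n + 1 := hj
        rcases (Nat.lt_succ_iff.1 hj').eq_or_lt with h | h
        · subst h; exact le_sup_right
        · exact le_sup_of_le_left (le_iSup (fun j : {j : ULift.{u} ℕ // j < ULift.up.{u} n} =>
            beq z (ordN j.1)) ⟨ULift.up j, h⟩)
  exact top_le_iff.1 (beq_of_forall (fun z => by rw [key n z]; simp)
    (fun z => by rw [key n z]; simp))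

theorem beq_natN_of_ne {m n : ℕ} (h : m ≠ n) : beq (natN m : BN B) (natN n) = ⊥ := by
  rw [eq_bot_iff]
  have h1 : beq (natN m : BN B) (natN n) ≤ beq (ordN (ULift.up.{u} m)) (ordN (ULift.up.{u} n)) := by
    refine btrans (y := natN m) (bsymm (by rw [natN_beq_ordN]; exact le_top)) ?_
    exact btrans le_rfl (by rw [natN_beq_ordN]; exact le_top)
  rw [beq_ordN_of_ne (fun e => h (congrArg ULift.down e))] at h1
  exact h1

theorem isSuccB_succN (y : BN B) : isSuccB y (succN y) = ⊤ := by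
  unfold isSuccB
  rw [iInf_eq_top]
  intro z
  rw [mem_succN]
  simp

theorem isSuccB_le (y s : BN B) : isSuccB y s ≤ beq s (succN y) := by
  refine beq_of_forall (fun z => ?_) (fun z => ?_)
  · rw [mem_succN]
    exact (iInf_le _ z).trans inf_le_left
  · rw [mem_succN]
    exact (iInf_le _ z).trans inf_le_right

theorem isIndB_omN : isIndB (omN : BN B) = ⊤ := by
  rw [eq_top_iff]
  unfold isIndB
  refine le_inf ?_ (le_iInf fun y => ?_)
  · refine bex_intro emp (le_inf ?_ (le_iInf fun z => ?_))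
    · exact le_mem_mk (ULift ℕ) (fun n => natN n.down) (fun _ => ⊤) ⟨0⟩
    · rw [mem_emp]; simp
  · rw [le_himp_iff, top_inf_eq]
    refine bex_intro (succN y) (le_inf (mem_omN_succ y) ?_)
    rw [isSuccB_succN]; exact le_top

theorem isIndB_le (v : BN B) (n : ℕ) : isIndB v ≤ mem (natN n) v := by
  induction n with
  | zero =>
    refine bex_elim (inf_le_left : isIndB v ≤ ⨆ e, mem e v ⊓ ⨅ z, (mem z e)ᶜ) fun e => ?_
    have h1 : isIndB v ⊓ (mem e v ⊓ ⨅ z, (mem z e)ᶜ) ≤ beq e emp := by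
      refine sub_antisymm (sub_intro fun z => ?_) (sub_intro fun z => ?_)
      · have h2 : isIndB v ⊓ (mem e v ⊓ ⨅ z, (mem z e)ᶜ) ⊓ mem z e ≤ (mem z e)ᶜ :=
          inf_le_left.trans (inf_le_right.trans (inf_le_right.trans (iInf_le _ z)))
        exact (le_inf inf_le_right h2).trans (by simp)
      · rw [mem_emp]; exact inf_le_right.trans bot_le
    exact mem_congr_left h1 (inf_le_right.trans inf_le_left)
  | succ n ih =>
    have h1 : isIndB v ≤ ⨆ s, mem s v ⊓ isSuccB (natN n) s :=
      bmp ((inf_le_right : isIndB v ≤ ⨅ y, mem y v ⇨ ⨆ s, mem s v ⊓ isSuccB y s).trans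
        (iInf_le _ (natN n))) ih
    refine bex_elim h1 fun s => ?_
    refine mem_congr_left (x := s) ?_ (inf_le_right.trans inf_le_left)
    exact (inf_le_right.trans inf_le_right).trans (isSuccB_le (natN n) s)

theorem isIndB_le_omN (v : BN B) : isIndB v ≤ ⨅ y, mem y omN ⇨ mem y v := by
  rw [omN, ball_mk (ext_mem cong_id (cong_const v))]
  refine le_iInf fun n => ?_
  rw [le_himp_iff]
  exact inf_le_left.trans (isIndB_le v n.down)

theorem isOmegaB_omN : isOmegaB (omN : BN B) = ⊤ := by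
  rw [eq_top_iff]
  unfold isOmegaB
  refine le_inf (by rw [isIndB_omN]) (le_iInf fun v => ?_)
  rw [le_himp_iff, top_inf_eq]
  exact isIndB_le_omN v

theorem isOmegaB_le (w : BN B) : isOmegaB w ≤ beq w omN := by
  have h1 : isOmegaB w ≤ ⨅ y, mem y w ⇨ mem y omN :=
    bmp ((inf_le_right : isOmegaB w ≤ ⨅ v, isIndB v ⇨ ⨅ y, mem y w ⇨ mem y v).trans
      (iInf_le _ omN)) (by rw [isIndB_omN]; exact le_top)
  have h2 : isOmegaB w ≤ ⨅ y, mem y omN ⇨ mem y w :=
    (inf_le_left : isOmegaB w ≤ isIndB w).trans (isIndB_le_omN w)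
  exact sub_antisymm h1 h2

theorem ball_omN {φ : BN B → B} [hφ : ExtC φ] :
    (⨅ x, mem x omN ⇨ φ x) = ⨅ n : ℕ, φ (natN n) := by
  rw [omN, ball_mk hφ.h]
  simp only [top_himp]
  exact Equiv.iInf_comp (Equiv.ulift) (g := fun n : ℕ => φ (natN n))

theorem bex_omN {φ : BN B → B} [hφ : ExtC φ] :
    (⨆ x, mem x omN ⊓ φ x) = ⨆ n : ℕ, φ (natN n) := by
  rw [omN, bex_mk hφ.h]
  simp only [top_inf_eq]
  exact Equiv.iSup_comp (Equiv.ulift) (g := fun n : ℕ => φ (natN n))

theorem isCtblB_le (s : BN B) : isCtblB s ≤ ⨆ f, mapsOntoB f omN s := by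
  unfold isCtblB
  refine iSup_le fun w => ?_
  have h : Ext (fun w => ⨆ f, mapsOntoB f w s) := ExtC.h
  refine h.app (g := isOmegaB w ⊓ ⨆ f, mapsOntoB f w s) (x := w) ?_ inf_le_right
  exact inf_le_left.trans (isOmegaB_le w)

/-- the name of a sequence of names -/
def seqN (u : ℕ → BN B) : BN B :=
  mk (ULift ℕ) (fun n => opair (natN n.down) (u n.down)) (fun _ => ⊤)

/-- the name of the range of a sequence of names -/
def ranN (u : ℕ → BN B) : BN B := mk (ULift ℕ) (fun n => u n.down) (fun _ => ⊤)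

theorem rel_seqN (u : ℕ → BN B) (n : ℕ) (v : BN B) : rel (seqN u) (natN n) v = beq v (u n) := by
  rw [rel, seqN, mem_mk]
  apply le_antisymm
  · refine iSup_le fun m => ?_
    rw [top_inf_eq]
    by_cases h : n = m.down
    · subst h; exact opair_inj_right le_rfl
    · have h1 := opair_inj_left
        (le_rfl : beq (opair (natN n) v) (opair (natN m.down) (u m.down)) ≤ _)
      rw [beq_natN_of_ne h] at h1
      exact h1.trans bot_le
  · refine bex_intro ⟨n⟩ (le_inf le_top ?_)
    exact cong_opair brefl le_rfl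

theorem isCtblB_ranN (u : ℕ → BN B) : isCtblB (ranN u) = ⊤ := by
  rw [eq_top_iff]
  unfold isCtblB
  refine bex_intro omN (le_inf (by rw [isOmegaB_omN]) (bex_intro (seqN u) ?_))
  unfold mapsOntoB
  refine le_inf ?_ ?_
  · rw [ball_omN]
    refine le_iInf fun n => le_iInf fun v => le_iInf fun w => ?_
    rw [rel_seqN, rel_seqN, le_himp_iff, le_himp_iff, top_inf_eq]
    exact btrans inf_le_left (bsymm inf_le_right)
  · refine le_iInf fun v => ?_
    rw [le_himp_iff, top_inf_eq, bex_omN, ranN, mem_mk]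
    refine iSup_le fun n => bex_intro n.down ?_
    rw [rel_seqN]
    exact inf_le_right

theorem mem_ranN (u : ℕ → BN B) (n : ℕ) : mem (u n) (ranN u) = ⊤ :=
  top_le_iff.1 (le_mem_mk (ULift ℕ) (fun n => u n.down) (fun _ => ⊤) ⟨n⟩)

theorem ball_ranN (u : ℕ → BN B) {φ : BN B → B} [hφ : ExtC φ] :
    (⨅ x, mem x (ranN u) ⇨ φ x) = ⨅ n : ℕ, φ (u n) := by
  rw [ranN, ball_mk hφ.h]
  simp only [top_himp]
  exact Equiv.iInf_comp (Equiv.ulift) (g := fun n : ℕ => φ (u n))

end H2.DG
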