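import Pool.Agent.H2.DG.Space
import Pool.Agent.H2.DG.Omega

/-!
# The generic space is a regular Lindelöf P-space
-/

open Set Ordinal

namespace H2.DG
open H85.Forcing H85.Forcing.BN H85.Forcing.RO

theorem forces_ball {p : Cond} {f g : Nm → RO Cond} :
    p ∈ (⨅ x, f x ⇨ g x) ↔ ∀ x, ∀ q ≤ p, q ∈ f x → q ∈ g x := by
  rw [forces_iInf]; rfl

theorem forces_ball_XN {p : Cond} {φ : Nm → RO Cond} [hφ : ExtC φ] :
    p ∈ (⨅ x, mem x XN ⇨ φ x) ↔ ∀ i, p ∈ φ (xN i) := by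
  rw [ball_XN, forces_iInf]

theorem forces_beq_refl {p : Cond} {x : Nm} : p ∈ beq x x := by
  rw [beq_refl]; exact forces_top

theorem forces_mem_XN' {p : Cond} (i : I) : p ∈ mem (xN i) XN := by
  rw [mem_xN_XN]; exact forces_top

theorem forces_ag_refl {p : Cond} {c : Set K} {x : Nm} : p ∈ ag c x x := by
  unfold ag
  rw [forces_iInf]
  intro γ
  rw [forces_inf, forces_himp]
  exact ⟨fun _ _ h => h, fun _ _ h => h⟩

/-- a neighbourhood inside an open set -/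
theorem exists_nb {p : Cond} {U : Nm} {i : I} (h : p ∈ mem U tN) (hi : p ∈ mem (xN i) U) :
    ∀ q ≤ p, ∃ r ≤ q, ∃ c : Ct, c.1 ⊆ r.C ∧ i.1 ∈ r.E ∧ NbIn r c.1 i U := by
  intro q hq
  rw [mem_tN, forces_inf, forces_openB] at h
  obtain ⟨r, hr, c, hc⟩ := h.2 i q hq (hi.down hq) q le_rfl
  obtain ⟨s, hs, hsC, hsE, -⟩ := r.exists_add c.2 (countable_singleton i.1)
  refine ⟨s, hs.trans hr, c, ?_, ?_, hc.down hs⟩
  · rw [hsC]; exact subset_union_right
  · rw [hsE]; exact Or.inr rfl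

theorem forces_isTopology (p : Cond) : p ∈ isTopologyB XN tN := by
  unfold isTopologyB
  refine ⟨?_, ?_, ?_, ?_⟩
  · change p ∈ ⨅ u, mem u tN ⇨ ⨅ x, mem x u ⇨ mem x XN
    rw [forces_ball]
    intro u q _ hq
    rw [mem_tN] at hq
    exact hq.1
  · change p ∈ mem XN tN
    rw [mem_tN, forces_inf, forces_openB]
    refine ⟨?_, fun i q _ _ q' _ => ⟨q', le_rfl, ⟨∅, countable_empty⟩, fun j r _ _ => ?_⟩⟩
    · rw [forces_sub]; exact fun _ _ _ h => h
    · exact forces_mem_XN' j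
  · change p ∈ ⨅ u, mem u tN ⇨ ⨅ v, mem v tN ⇨ ⨆ w, mem w tN ⊓
      ⨅ x, (mem x w ⇨ mem x u ⊓ mem x v) ⊓ (mem x u ⊓ mem x v ⇨ mem x w)
    rw [forces_ball]
    intro u q _ hu
    rw [forces_ball]
    intro v q' hq' hv
    have hu' := hu.down hq'
    refine forces_iSup_of (sepX fun z => mem z u ⊓ mem z v) (forces_inf.2 ⟨?_, ?_⟩)
    · rw [mem_sepX_tN, forces_openB]
      intro i r hr hi r' hr'
      rw [mem_sepX_xN] at hi
      obtain ⟨s, hs, c, -, -, hc⟩ := exists_nb (hu'.down hr) hi.1 r' hr'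
      obtain ⟨t, ht, d, -, -, hd⟩ := exists_nb (hv.down hr) hi.2 s (hs.trans hr')
      refine ⟨t, ht.trans hs, ⟨c.1 ∪ d.1, c.2.union d.2⟩, fun j w hw h => ?_⟩
      rw [mem_sepX_xN]
      exact ⟨hc j w (hw.trans ht) (ag_mono subset_union_left h),
        hd j w hw (ag_mono subset_union_right h)⟩
    · rw [forces_iInf]
      intro x
      rw [forces_inf, forces_himp, forces_himp, mem_sepX]
      refine ⟨fun r _ h => (forces_inf.1 h).2, fun r hr h => forces_inf.2 ⟨?_, h⟩⟩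
      rw [mem_tN] at hu'
      exact forces_sub.1 hu'.1 x r hr h.1
  · change p ∈ ⨅ s, (⨅ u, mem u s ⇨ mem u tN) ⇨ ⨆ w, mem w tN ⊓
      ⨅ x, (mem x w ⇨ ⨆ u, mem u s ⊓ mem x u) ⊓ ((⨆ u, mem u s ⊓ mem x u) ⇨ mem x w)
    rw [forces_iInf]
    intro s
    rw [forces_himp]
    intro q _ hs
    rw [forces_ball] at hs
    refine forces_iSup_of (sepX fun z => ⨆ u, mem u s ⊓ mem z u) (forces_inf.2 ⟨?_, ?_⟩)
    · rw [mem_sepX_tN, forces_openB]
      intro i r hr hi r' hr'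
      rw [mem_sepX_xN, forces_iSup] at hi
      obtain ⟨r1, hr1, u, hu⟩ := hi r' hr'
      obtain ⟨hu1, hu2⟩ := forces_inf.1 hu
      have h1 : r1 ≤ q := hr1.trans (hr'.trans hr)
      obtain ⟨t, ht, c, -, -, hc⟩ := exists_nb (hs u r1 h1 hu1) hu2 r1 le_rfl
      refine ⟨t, ht.trans hr1, c, fun j w hw h => ?_⟩
      rw [mem_sepX_xN]
      exact forces_iSup_of u (forces_inf.2 ⟨hu1.down (hw.trans ht), hc j w hw h⟩)
    · rw [forces_iInf]
      intro x
      rw [forces_inf, forces_himp, forces_himp, mem_sepX]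
      refine ⟨fun r _ h => (forces_inf.1 h).2, fun r hr h => forces_inf.2 ⟨?_, h⟩⟩
      refine forces_of_dense fun r' hr' => ?_
      obtain ⟨r1, hr1, u, hu⟩ := forces_iSup.1 h r' hr'
      obtain ⟨hu1, hu2⟩ := forces_inf.1 hu
      have h1 := hs u r1 (hr1.trans (hr'.trans hr)) hu1
      rw [mem_tN] at h1
      exact ⟨r1, hr1, forces_sub.1 h1.1 x r1 le_rfl hu2⟩

/-- if no stronger condition separates two points, they are equal -/
theorem forces_beq_xN {p : Cond} {i j : I} (hi : i.1 ∈ p.E) (hj : j.1 ∈ p.E)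
    (h : ∀ q ≤ p, ∀ γ ∈ q.C, (Cut i.2 (q.b i.1) γ ↔ Cut j.2 (q.b j.1) γ)) :
    p ∈ beq (xN i) (xN j) := by
  have key : ∀ i j : I, i.1 ∈ p.E → j.1 ∈ p.E →
      (∀ q ≤ p, ∀ γ ∈ q.C, (Cut i.2 (q.b i.1) γ ↔ Cut j.2 (q.b j.1) γ)) →
      ∀ γ, ∀ q ≤ p, q ∈ xR i γ → q ∈ xR j γ := by
    intro i j hi hj h γ q hq hγ
    refine forces_of_dense fun r hr => ?_
    obtain ⟨s, hs, hsC, -, -⟩ := r.exists_add (countable_singleton γ) (countable_empty)
    have hγs : γ ∈ s.C := by rw [hsC]; exact Or.inr rfl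
    have hsp : s ≤ p := hs.trans (hr.trans hq)
    refine ⟨s, hs, ?_⟩
    rw [forces_xR (hsp.2.1 hj) hγs, ← h s hsp γ hγs, ← forces_xR (hsp.2.1 hi) hγs]
    exact hγ.down (hs.trans hr)
  rw [xN, xN, setN, setN, beq_mk_mk, forces_inf, forces_iInf, forces_iInf]
  constructor
  · intro γ
    rw [forces_himp]
    intro q hq h1
    have h2 : mem (ordN γ) (setN (xR j)) = xR j γ := mem_setN _ _
    rw [setN] at h2
    rw [h2]
    exact key i j hi hj h γ q hq h1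
  · intro γ
    rw [forces_himp]
    intro q hq h1
    have h2 : mem (ordN γ) (setN (xR i)) = xR i γ := mem_setN _ _
    rw [setN] at h2
    rw [h2]
    exact key j i hj hi (fun q hq γ hγ => (h q hq γ hγ).symm) γ q hq h1

theorem forces_isT1 (p : Cond) : p ∈ isT1B XN tN := by
  unfold isT1B
  rw [forces_ball_XN]
  intro i
  rw [forces_ball_XN]
  intro j
  rw [forces_himp]
  intro q _ hne
  refine forces_of_dense fun r hr => ?_
  obtain ⟨r1, hr1, -, hE, -⟩ := r.exists_add countable_empty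
    ((countable_singleton i.1).union (countable_singleton j.1))
  have hi : i.1 ∈ r1.E := by rw [hE]; exact Or.inr (Or.inl rfl)
  have hj : j.1 ∈ r1.E := by rw [hE]; exact Or.inr (Or.inr rfl)
  have h1 : ∃ s ≤ r1, ∃ γ ∈ s.C, ¬ (Cut i.2 (s.b i.1) γ ↔ Cut j.2 (s.b j.1) γ) := by
    by_contra hcon
    push Not at hcon
    exact forces_compl.1 hne r1 (hr1.trans hr) (forces_beq_xN hi hj fun q hq γ hγ => by
      have := hcon q hq γ hγ
      tauto)
  obtain ⟨s, hs, γ, hγ, h2⟩ := h1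
  refine ⟨s, hs.trans hr1, forces_iSup_of (sepX fun z => ag {γ} (xN i) z)
    (forces_inf.2 ⟨open_nb s (countable_singleton γ) i, forces_inf.2 ⟨?_, ?_⟩⟩)⟩
  · rw [mem_sepX_xN]; exact forces_ag_refl
  · rw [forces_compl]
    intro t ht h3
    rw [mem_sepX_xN, forces_ag (singleton_subset_iff.2 (ht.1 hγ)) (ht.2.1 (hs.2.1 hi))
      (ht.2.1 (hs.2.1 hj))] at h3
    have h4 := h3 γ rfl
    unfold Cut at h2 h4
    rw [Cond.mem_b ht (hs.2.1 hi) hγ, Cond.mem_b ht (hs.2.1 hj) hγ] at h4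
    exact h2 h4

theorem forces_isReg (p : Cond) : p ∈ isRegB XN tN := by
  unfold isRegB
  rw [forces_ball_XN]
  intro i
  rw [forces_ball]
  intro u q _ hu
  rw [forces_himp]
  intro r hr hi
  refine forces_of_dense fun r' hr' => ?_
  obtain ⟨s, hs, c, -, -, hc⟩ := exists_nb (hu.down hr) hi r' hr'
  refine ⟨s, hs, forces_iSup_of (sepX fun z => ag c.1 (xN i) z)
    (forces_inf.2 ⟨open_nb s c.2 i, forces_inf.2 ⟨?_, ?_⟩⟩)⟩
  · rw [mem_sepX_xN]; exact forces_ag_refl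
  · change s ∈ ⨆ w, mem w tN ⊓ ((⨅ z, mem z (sepX fun z => ag c.1 (xN i) z) ⇨ (mem z w)ᶜ) ⊓
      ⨅ z, mem z XN ⇨ mem z u ⊔ mem z w)
    refine forces_iSup_of (sepX fun z => (ag c.1 (xN i) z)ᶜ)
      (forces_inf.2 ⟨open_nb_compl s c.2 i, forces_inf.2 ⟨?_, ?_⟩⟩)
    · rw [forces_ball]
      intro z t _ hz
      rw [forces_compl]
      intro t' ht' hz'
      rw [mem_sepX, forces_inf] at hz hz'
      exact forces_compl.1 hz'.2 t' le_rfl (hz.2.down ht')
    · rw [forces_ball_XN]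
      intro j
      rw [forces_sup]
      intro t ht
      by_cases h : ∃ t' ≤ t, t' ∈ ag c.1 (xN i) (xN j)
      · obtain ⟨t', ht', h⟩ := h
        exact ⟨t', ht', Or.inl (hc j t' (ht'.trans ht) h)⟩
      · refine ⟨t, le_rfl, Or.inr ?_⟩
        rw [mem_sepX_xN, forces_compl]
        exact fun t' ht' h' => h ⟨t', ht', h'⟩

/-- using that a name is forced to be countable -/
theorem exists_of_isCtblB {p : Cond} {s : Nm} (h : p ∈ isCtblB s) :
    ∀ q ≤ p, ∃ r ≤ q, ∃ f : Nm,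
      (∀ n v w, ∀ t ≤ r, t ∈ rel f (natN n) v → t ∈ rel f (natN n) w → t ∈ beq v w) ∧
      ∀ v, ∀ t ≤ r, t ∈ mem v s → ∀ t' ≤ t, ∃ t'' ≤ t', ∃ n, t'' ∈ rel f (natN n) v := by
  intro q hq
  have h1 : p ∈ ⨆ f, mapsOntoB f omN s := (isCtblB_le s) p h
  obtain ⟨r, hr, f, hf⟩ := forces_iSup.1 h1 q hq
  refine ⟨r, hr, f, ?_, ?_⟩
  · intro n v w t ht h2 h3
    have h4 : r ∈ ⨅ u, mem u omN ⇨ ⨅ v, ⨅ w, rel f u v ⇨ (rel f u w ⇨ beq v w) := hf.1
    rw [ball_omN, forces_iInf] at h4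
    have h5 := forces_iInf.1 (forces_iInf.1 (h4 n) v) w
    rw [forces_himp] at h5
    exact forces_himp.1 (h5 t ht h2) t le_rfl h3
  · intro v t ht h2 t' ht'
    have h4 : r ∈ ⨅ v, mem v s ⇨ ⨆ u, mem u omN ⊓ rel f u v := hf.2
    rw [forces_ball] at h4
    have h5 := h4 v t ht h2
    rw [bex_omN, forces_iSup] at h5
    exact h5 t' ht'

theorem forces_isPSpace (p : Cond) : p ∈ isPSpaceB XN tN := by
  unfold isPSpaceB
  rw [forces_iInf]
  intro s
  rw [forces_himp]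
  intro p1 _ hct
  rw [forces_himp]
  intro p2 hp2 hst
  rw [forces_ball] at hst
  have hct := hct.down hp2
  refine forces_iSup_of (sepX fun z => ⨅ u, mem u s ⇨ mem z u) (forces_inf.2 ⟨?_, ?_⟩)
  · rw [mem_sepX_tN, forces_openB]
    intro i q hq hi q' hq'
    rw [mem_sepX_xN, forces_ball] at hi
    obtain ⟨r, hr, f, hf1, hf2⟩ := exists_of_isCtblB hct q' (hq'.trans hq)
    obtain ⟨t, ht, hT⟩ := Cond.exists_tasks (ι := ℕ) r
      (fun n t => ∃ c : Ct, ∀ v, ∀ t' ≤ t, t' ∈ rel f (natN n) v → t' ∈ mem v s →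
        NbIn t' c.1 i v)
      (fun n t t1 ht1 ⟨c, hc⟩ => ⟨c, fun v t' ht' h1 h2 => hc v t' (ht'.trans ht1) h1 h2⟩)
      (fun n t ht => by
        by_cases h : ∃ t1 ≤ t, ∃ v, t1 ∈ rel f (natN n) v ∧ t1 ∈ mem v s
        · obtain ⟨t1, ht1, v, hv1, hv2⟩ := h
          have h1 : t1 ≤ p2 := ht1.trans (ht.trans (hr.trans (hq'.trans hq)))
          have h2 : t1 ∈ mem (xN i) v := hi v t1 (ht1.trans (ht.trans (hr.trans hq'))) hv2
          obtain ⟨t2, ht2, c, -, -, hc⟩ := exists_nb (hst v t1 h1 hv2) h2 t1 le_rfl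
          refine ⟨t2, ht2.trans ht1, c, fun w t' ht' hw1 hw2 j t'' ht'' h3 => ?_⟩
          have h4 : t'' ∈ beq v w := hf1 n v w t'' (ht''.trans (ht'.trans (ht2.trans
            (ht1.trans ht)))) (hv1.down (ht''.trans (ht'.trans ht2))) (hw1.down ht'')
          exact congr_right h4 (hc j t'' (ht''.trans ht') h3)
        · refine ⟨t, le_rfl, ⟨∅, countable_empty⟩, fun v t' ht' h1 h2 => ?_⟩
          exact absurd ⟨t', ht', v, h1, h2⟩ h)
    choose c hc using hT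
    refine ⟨t, ht.trans hr, ⟨⋃ n, (c n).1, countable_iUnion fun n => (c n).2⟩,
      fun j t1 ht1 h1 => ?_⟩
    rw [mem_sepX_xN, forces_ball]
    intro u t2 ht2 hu
    refine forces_of_dense fun t3 ht3 => ?_
    obtain ⟨t4, ht4, n, hn⟩ := hf2 u t2 (ht2.trans (ht1.trans ht)) hu t3 ht3
    refine ⟨t4, ht4, ?_⟩
    refine hc n u t4 (ht4.trans (ht3.trans (ht2.trans ht1))) hn (hu.down (ht4.trans ht3)) j t4
      le_rfl ?_
    exact (ag_mono (subset_iUnion (fun n => (c n).1) n) h1).down (ht4.trans (ht3.trans ht2))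
  · rw [forces_iInf]
    intro x
    rw [forces_inf, forces_himp, forces_himp, mem_sepX]
    exact ⟨fun r _ h => h, fun r _ h => h⟩

theorem forces_isLindelof (p : Cond) : p ∈ isLindelofB XN tN := by
  unfold isLindelofB
  rw [forces_iInf]
  intro s
  rw [forces_himp]
  intro p1 _ hst
  rw [forces_himp]
  intro p2 hp2 hcov
  rw [forces_ball] at hst
  rw [forces_ball_XN] at hcov
  refine forces_of_dense fun q hq => ?_
  obtain ⟨r, hr, hT⟩ := Cond.exists_fusion q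
    (fun i r => ∃ u : Nm, r ∈ mem u s ∧ ∃ c : Ct, c.1 ⊆ r.C ∧ NbIn r c.1 i u)
    (fun i r r' hr' ⟨u, hu, c, hc, h⟩ => ⟨u, hu.down hr', c, hc.trans hr'.1, h.down hr'⟩)
    (fun i r hr => by
      obtain ⟨r1, hr1, u, hu⟩ := forces_iSup.1 (hcov i) r (hr.trans hq)
      obtain ⟨hu1, hu2⟩ := forces_inf.1 hu
      have h1 : r1 ≤ p1 := hr1.trans (hr.trans (hq.trans hp2))
      obtain ⟨r2, hr2, c, hc1, -, hc2⟩ := exists_nb (hst u r1 h1 hu1) hu2 r1 le_rfl
      exact ⟨r2, hr2.trans hr1, u, hu1.down hr2, c, hc1, hc2⟩)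
  have hne : Nonempty r.cuts := ⟨⟨(0, ⊤), r.zero_mem, Or.inl rfl⟩⟩
  have : Countable r.cuts := r.cuts_countable.to_subtype
  obtain ⟨e, he⟩ := exists_surjective_nat r.cuts
  choose u hu c hc1 hc2 using fun n => hT (e n).1 (e n).2
  refine ⟨r, hr, forces_iSup_of (ranN u) (forces_inf.2 ⟨?_, forces_inf.2 ⟨?_, ?_⟩⟩)⟩
  · rw [isCtblB_ranN]; exact forces_top
  · change r ∈ ⨅ x, mem x (ranN u) ⇨ mem x s
    rw [ball_ranN, forces_iInf]
    exact hu
  · change r ∈ ⨅ x, mem x XN ⇨ ⨆ v, mem v (ranN u) ⊓ mem x v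
    rw [forces_ball_XN]
    intro j
    refine forces_of_dense fun t ht => ?_
    obtain ⟨t1, ht1, -, hE, -⟩ := t.exists_add countable_empty (countable_singleton j.1)
    have hj : j.1 ∈ t1.E := by rw [hE]; exact Or.inr rfl
    have htr : t1 ≤ r := ht1.trans ht
    obtain ⟨i, hi, hcut⟩ := Cond.exists_cut htr hj j.2
    obtain ⟨n, hn⟩ := he ⟨i, hi⟩
    have hn' : (e n).1 = i := by rw [hn]
    refine ⟨t1, ht1, forces_iSup_of (u n) (forces_inf.2 ⟨?_, ?_⟩)⟩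
    · rw [mem_ranN]; exact forces_top
    · refine hc2 n j t1 htr ?_
      rw [hn', forces_ag ((hc1 n).trans htr.1) (htr.2.1 hi.1) hj]
      intro γ hγ
      rw [hcut γ (hc1 n hγ)]
      unfold Cut
      rw [Cond.mem_b htr hi.1 (hc1 n hγ)]

end H2.DG
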