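import Pool.Agent.H2.DG.Forced

/-!
# The generic space is not discretely generated, and the main theorem
-/

open Set Ordinal

namespace H2.DG
open H85.Forcing H85.Forcing.BN H85.Forcing.RO

/-- the index of the point `a ξ`: the cut at `ξ` of `b ξ` -/
def ai (ξ : K) : I := (ξ, (ξ : WithTop K))

/-- the name of `A = {a ξ : ξ ∈ K}` -/
noncomputable def AN : Nm := mk K (fun ξ => xN (ai ξ)) (fun _ => ⊤)

/-- the index of the zero point -/
def zi : I := (0, ⊤)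

theorem mem_a_AN (p : Cond) (ξ : K) : p ∈ mem (xN (ai ξ)) AN :=
  le_iff_forces.1 (le_mem_mk K (fun ξ => xN (ai ξ)) (fun _ => ⊤) ξ) p forces_top

theorem forces_mem_AN {p : Cond} {z : Nm} (h : p ∈ mem z AN) :
    ∀ q ≤ p, ∃ r ≤ q, ∃ ξ, r ∈ beq z (xN (ai ξ)) := by
  rw [AN, mem_mk, forces_iSup] at h
  simpa only [top_inf_eq] using h

/-- `0` is in the closure of `A` -/
theorem forces_inCl (p : Cond) : p ∈ inClB tN AN (xN zi) := by
  unfold inClB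
  rw [forces_ball]
  intro u q _ hu
  rw [forces_himp]
  intro r hr hz
  refine forces_of_dense fun r' hr' => ?_
  obtain ⟨s, hs, c, hcC, -, hc⟩ := exists_nb (hu.down hr) hz r' hr'
  obtain ⟨ξ, hξ⟩ := exists_gt_countable (s.ctC.union s.ctE)
  obtain ⟨t, ht, htC, htE, htb⟩ := s.exists_add countable_empty (countable_singleton ξ)
  have hξE : ξ ∉ s.E := fun h => absurd (hξ ξ (Or.inr h)) (lt_irrefl _)
  have hξt : ξ ∈ t.E := by rw [htE]; exact Or.inr rfl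
  refine ⟨t, ht.trans hs, forces_iSup_of (xN (ai ξ)) (forces_inf.2 ⟨?_, mem_a_AN t ξ⟩)⟩
  refine hc (ai ξ) t ht ?_
  have hi : zi.1 ∈ t.E := t.zero_mem
  have hj : (ai ξ).1 ∈ t.E := hξt
  rw [forces_ag (hcC.trans ht.1) hi hj]
  intro γ hγ
  have h1 : t.b zi.1 = ∅ := t.b_zero
  have h2 : t.b (ai ξ).1 = ∅ := by rw [htb]; exact s.b_out ξ hξE
  have h3 : γ < ξ := hξ γ (Or.inl (hcC hγ))
  rw [h1, h2]
  unfold Cut
  constructor
  · intro h; exact (h (WithTop.coe_lt_top γ)).elim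
  · intro h; exact (h (WithTop.coe_lt_coe.2 h3)).elim

theorem forces_not_isDG (p : Cond) : p ∈ (isDGB XN tN)ᶜ := by
  rw [forces_compl]
  intro p0 _ hDG
  unfold isDGB at hDG
  have hsub : p0 ∈ ⨅ a, mem a AN ⇨ mem a XN := by
    rw [AN, ball_mk (ext_mem cong_id (cong_const XN)), forces_iInf]
    intro ξ
    rw [forces_himp]
    intro q _ _
    exact forces_mem_XN' _
  have h1 := forces_himp.1 (forces_iInf.1 hDG AN) p0 le_rfl hsub
  rw [forces_ball_XN] at h1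
  have h2 := forces_himp.1 (h1 zi) p0 le_rfl (forces_inCl p0)
  obtain ⟨p1, hp1, D, hD⟩ := forces_iSup.1 h2 p0 le_rfl
  obtain ⟨hD1, hD'⟩ := forces_inf.1 hD
  obtain ⟨hD2, hD3⟩ := forces_inf.1 hD'
  rw [forces_ball] at hD1
  -- the witnesses
  have key : ∀ β : K, ∃ (P : Cond) (ξ : K) (c : Set K) (u : Nm), P ≤ p1 ∧ ξ ∈ P.E ∧ β ∈ P.C ∧
      β < ξ ∧ β ∉ P.b ξ ∧ c ⊆ P.C ∧ P ∈ mem (xN (ai ξ)) D ∧ NbIn P c (ai ξ) u ∧
      P ∈ ⨅ y, mem y u ⇨ (mem y D ⇨ beq y (xN (ai ξ))) := by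
    intro β
    have hu0 := open_nb p1 (countable_singleton β) zi
    unfold inClB at hD3
    rw [forces_ball] at hD3
    have h3 := forces_himp.1 (hD3 _ p1 le_rfl hu0) p1 le_rfl
      (by rw [mem_sepX_xN]; exact forces_ag_refl)
    obtain ⟨r1, hr1, y, hy⟩ := forces_iSup.1 h3 p1 le_rfl
    obtain ⟨hy1, hy2⟩ := forces_inf.1 hy
    obtain ⟨r2, hr2, ξ, hξ⟩ := forces_mem_AN (hD1 y r1 hr1 hy2) r1 le_rfl
    obtain ⟨r3, hr3, hC3, hE3, -⟩ := r2.exists_add (countable_singleton β)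
      (countable_singleton ξ)
    have hβ3 : β ∈ r3.C := by rw [hC3]; exact Or.inr rfl
    have hξ3 : ξ ∈ r3.E := by rw [hE3]; exact Or.inr rfl
    have hyD : r3 ∈ mem (xN (ai ξ)) D := congr_left (hξ.down hr3) (hy2.down (hr3.trans hr2))
    have hag : r3 ∈ ag {β} (xN zi) (xN (ai ξ)) := by
      rw [mem_sepX, forces_inf] at hy1
      exact congr_ext (fun z => ag {β} (xN zi) z) (hξ.down hr3) (hy1.2.down (hr3.trans hr2))
    have hi : zi.1 ∈ r3.E := r3.zero_mem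
    have hj : (ai ξ).1 ∈ r3.E := hξ3
    rw [forces_ag (singleton_subset_iff.2 hβ3) hi hj] at hag
    have h4 := hag β rfl
    have h5 : r3.b zi.1 = ∅ := r3.b_zero
    rw [h5] at h4
    have h6 : ¬ Cut (ai ξ).2 (r3.b (ai ξ).1) β := by
      rw [← h4]
      intro h
      exact (h (WithTop.coe_lt_top β)).elim
    have h7 : β < ξ ∧ β ∉ r3.b ξ := by
      unfold Cut at h6
      rw [Classical.not_imp] at h6
      exact ⟨WithTop.coe_lt_coe.1 h6.1, h6.2⟩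
    -- discreteness
    unfold isDiscreteB at hD2
    rw [forces_ball] at hD2
    have h8 := hD2 (xN (ai ξ)) r3 (hr3.trans (hr2.trans hr1)) hyD
    obtain ⟨r4, hr4, u, hu⟩ := forces_iSup.1 h8 r3 le_rfl
    obtain ⟨hu1, hu'⟩ := forces_inf.1 hu
    obtain ⟨hu2, hu3⟩ := forces_inf.1 hu'
    obtain ⟨r5, hr5, c, hcC, -, hc⟩ := exists_nb hu1 hu2 r4 le_rfl
    have h35 : r5 ≤ r3 := hr5.trans hr4
    refine ⟨r5, ξ, c.1, u, h35.trans (hr3.trans (hr2.trans hr1)), h35.2.1 hξ3, h35.1 hβ3, h7.1,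
      ?_, hcC, hyD.down h35, hc, hu3.down hr5⟩
    rw [Cond.mem_b h35 hξ3 hβ3]
    exact h7.2
  choose P ξ c u hP1 hP2 hP3 hP4 hP5 hP6 hP7 hP8 hP9 using key
  obtain ⟨α, β, hαβ, hC, r, hr1, hr2, hr3⟩ := exists_pair P ξ hP2 hP4
  -- `r` forces that the two points agree on `c α`
  have e1 : (ai (ξ α)).1 ∈ r.E := hr1.2.1 (hP2 α)
  have e2 : (ai (ξ β)).1 ∈ r.E := hr2.2.1 (hP2 β)
  have hag : r ∈ ag (c α) (xN (ai (ξ α))) (xN (ai (ξ β))) := by
    rw [forces_ag ((hP6 α).trans hr1.1) e1 e2]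
    intro γ hγ
    have hγC : γ ∈ (P α).C := hP6 α hγ
    have h1 : γ < ξ β := (hC γ hγC).trans (hP4 β)
    have h2 : Cut (ai (ξ β)).2 (r.b (ai (ξ β)).1) γ ↔ γ ∈ r.b (ξ β) :=
      ⟨fun h => h (WithTop.coe_lt_coe.2 h1), fun h _ => h⟩
    rw [h2, hr3 γ hγC]
    change Cut _ (r.b (ξ α)) γ ↔ _
    unfold Cut
    rw [Cond.mem_b hr1 (hP2 α) hγC]
    rfl
  have h1 : r ∈ mem (xN (ai (ξ β))) (u α) := hP8 α (ai (ξ β)) r hr1 hag
  have h2 := hP9 α
  rw [forces_ball] at h2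
  have h3 := forces_himp.1 (h2 _ r hr1 h1) r le_rfl ((hP7 β).down hr2)
  -- but they differ at `β`
  have h4 : r ∈ xR (ai (ξ α)) β := by
    rw [forces_xR e1 (hr2.1 (hP3 β))]
    intro h
    exact absurd (WithTop.coe_lt_coe.1 h) (not_lt.2 hαβ.le)
  rw [← mem_xN] at h4
  have h5 : r ∈ mem (ordN β) (xN (ai (ξ β))) := congr_right (congr_symm h3) h4
  rw [mem_xN, forces_xR e2 (hr2.1 (hP3 β))] at h5
  have h6 : β ∈ r.b (ξ β) := h5 (WithTop.coe_lt_coe.2 (hP4 β))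
  rw [Cond.mem_b hr2 (hP2 β) (hP3 β)] at h6
  exact hP5 β h6

/-- **Main theorem.** -/
theorem main : ∃ (M : Type 2) (E : M → M → Prop), IsZFC E ∧ ∃ X t : M,
    IsTopology E X t ∧ IsT1 E X t ∧ IsReg E X t ∧ IsPSpace E X t ∧ IsLindelof E X t ∧
      ¬ IsDG E X t := by
  obtain ⟨U⟩ := exists_ult (RO Cond)
  have hT : ∀ b : RO Cond, (∀ p, p ∈ b) → U.T b := by
    intro b hb
    rw [eq_top_iff_forces.2 hb]
    exact U.top
  refine ⟨MQ U, ME U, isZFC U, cl U XN, cl U tN, ?_, ?_, ?_, ?_, ?_, ?_⟩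
  · rw [isTopology_iff]; exact hT _ forces_isTopology
  · rw [isT1_iff]; exact hT _ forces_isT1
  · rw [isReg_iff]; exact hT _ forces_isReg
  · rw [isPSpace_iff]; exact hT _ forces_isPSpace
  · rw [isLindelof_iff]; exact hT _ forces_isLindelof
  · rw [isDG_iff, ← U.compl]; exact hT _ forces_not_isDG

end H2.DG
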