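import Pool.Agent.H85.Forcing.Cards

/-!
# The forcing notion

Conditions are countable approximations `b ξ ∩ C` (`ξ ∈ E`) of subsets `b ξ` of `K`; a stronger
condition may only realize, on the old coordinates, cuts of old traces.
-/

open Set Ordinal

namespace H2.DG
open H85.Forcing (K)

/-- Conditions. -/
structure Cond : Type 1 where
  C : Set K
  E : Set K
  b : K → Set K
  ctC : C.Countable
  ctE : E.Countable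
  zero_mem : 0 ∈ E
  b_zero : b 0 = ∅
  b_sub : ∀ ξ, b ξ ⊆ C
  b_out : ∀ ξ, ξ ∉ E → b ξ = ∅

/-- membership in the cut at `δ` of `y`: `y` below `δ`, everything from `δ` on -/
def Cut (δ : WithTop K) (y : Set K) (γ : K) : Prop := (γ : WithTop K) < δ → γ ∈ y

instance : Preorder Cond where
  le q p := p.C ⊆ q.C ∧ p.E ⊆ q.E ∧ (∀ ξ ∈ p.E, ∀ γ ∈ p.C, γ ∈ q.b ξ ↔ γ ∈ p.b ξ) ∧
    ∀ ξ ∈ q.E, ∃ η ∈ p.E, ∃ δ, ∀ γ ∈ p.C, γ ∈ q.b ξ ↔ Cut δ (p.b η) γ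
  le_refl p := ⟨subset_rfl, subset_rfl, fun _ _ _ _ => Iff.rfl, fun ξ hξ =>
    ⟨ξ, hξ, ⊤, fun γ _ => ⟨fun h _ => h, fun h => h (WithTop.coe_lt_top γ)⟩⟩⟩
  le_trans r q p h h' := by
    obtain ⟨h1, h2, h3, h4⟩ := h
    obtain ⟨k1, k2, k3, k4⟩ := h'
    refine ⟨k1.trans h1, k2.trans h2, fun ξ hξ γ hγ => ?_, fun ξ hξ => ?_⟩
    · rw [h3 ξ (k2 hξ) γ (k1 hγ), k3 ξ hξ γ hγ]
    · obtain ⟨η, hη, δ, hδ⟩ := h4 ξ hξ
      obtain ⟨ζ, hζ, ε, hε⟩ := k4 η hη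
      refine ⟨ζ, hζ, min δ ε, fun γ hγ => ?_⟩
      rw [hδ γ (k1 hγ)]
      unfold Cut
      rw [hε γ hγ]
      unfold Cut
      rw [lt_min_iff]
      tauto

theorem Cond.mem_b {p q : Cond} (h : q ≤ p) {ξ γ : K} (hξ : ξ ∈ p.E) (hγ : γ ∈ p.C) :
    γ ∈ q.b ξ ↔ γ ∈ p.b ξ := h.2.2.1 ξ hξ γ hγ

/-- the trivial condition -/
def Cond.one : Cond where
  C := ∅
  E := {0}
  b _ := ∅
  ctC := countable_empty
  ctE := countable_singleton 0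
  zero_mem := rfl
  b_zero := rfl
  b_sub _ := subset_rfl
  b_out _ _ := rfl

instance : Nonempty Cond := ⟨Cond.one⟩

theorem Cond.mem_E_of_mem (p : Cond) {ξ γ : K} (h : γ ∈ p.b ξ) : ξ ∈ p.E := by
  by_contra hξ
  rw [p.b_out ξ hξ] at h
  exact h

/-- the limit of a decreasing sequence of conditions -/
theorem Cond.exists_lower (p : ℕ → Cond) (hp : ∀ m n, m ≤ n → p n ≤ p m) :
    ∃ q : Cond, (∀ n, q ≤ p n) ∧ (∀ ξ ∈ q.E, ∃ n, ξ ∈ (p n).E) ∧ ∀ γ ∈ q.C, ∃ n, γ ∈ (p n).C := by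
  have key : ∀ m, ∀ ξ ∈ (p m).E, ∀ γ ∈ (p m).C, (∃ n, γ ∈ (p n).b ξ) ↔ γ ∈ (p m).b ξ := by
    intro m ξ hξ γ hγ
    refine ⟨?_, fun h => ⟨m, h⟩⟩
    rintro ⟨n, hn⟩
    rcases le_total m n with h | h
    · exact (Cond.mem_b (hp m n h) hξ hγ).1 hn
    · exact (Cond.mem_b (hp n m h) ((p n).mem_E_of_mem hn) ((p n).b_sub ξ hn)).2 hn
  refine ⟨{ C := ⋃ n, (p n).C, E := ⋃ n, (p n).E, b := fun ξ => ⋃ n, (p n).b ξ,
            ctC := countable_iUnion fun n => (p n).ctC, ctE := countable_iUnion fun n => (p n).ctE,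
            zero_mem := mem_iUnion.2 ⟨0, (p 0).zero_mem⟩, b_zero := ?_, b_sub := ?_, b_out := ?_ },
    fun m => ⟨?_, ?_, ?_, ?_⟩, ?_, ?_⟩
  · simp [(p _).b_zero]
  · intro ξ
    exact iUnion_mono fun n => (p n).b_sub ξ
  · intro ξ hξ
    rw [mem_iUnion, not_exists] at hξ
    rw [iUnion_eq_empty]
    exact fun n => (p n).b_out ξ (hξ n)
  · exact subset_iUnion (fun n => (p n).C) m
  · exact subset_iUnion (fun n => (p n).E) m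
  · intro ξ hξ γ hγ
    rw [← key m ξ hξ γ hγ]
    simp
  · intro ξ hξ
    obtain ⟨n, hn⟩ := mem_iUnion.1 hξ
    have h1 : ξ ∈ (p (max m n)).E := (hp n _ (le_max_right m n)).2.1 hn
    obtain ⟨η, hη, δ, hδ⟩ := (hp m _ (le_max_left m n)).2.2.2 ξ h1
    refine ⟨η, hη, δ, fun γ hγ => ?_⟩
    rw [← hδ γ hγ, ← key (max m n) ξ h1 γ ((hp m _ (le_max_left m n)).1 hγ)]
    simp
  · intro ξ hξ
    exact mem_iUnion.1 hξ
  · intro γ hγ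
    exact mem_iUnion.1 hγ

/-- adding coordinates and indices -/
theorem Cond.exists_add (p : Cond) {c S : Set K} (hc : c.Countable) (hS : S.Countable) :
    ∃ q ≤ p, q.C = p.C ∪ c ∧ q.E = p.E ∪ S ∧ q.b = p.b := by
  refine ⟨{ C := p.C ∪ c, E := p.E ∪ S, b := p.b, ctC := p.ctC.union hc, ctE := p.ctE.union hS,
            zero_mem := Or.inl p.zero_mem, b_zero := p.b_zero,
            b_sub := fun ξ => (p.b_sub ξ).trans subset_union_left,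
            b_out := fun ξ hξ => p.b_out ξ fun h => hξ (Or.inl h) },
    ⟨subset_union_left, subset_union_left, fun _ _ _ _ => Iff.rfl, ?_⟩, rfl, rfl, rfl⟩
  intro ξ _
  by_cases hξ : ξ ∈ p.E
  · exact ⟨ξ, hξ, ⊤, fun γ _ => ⟨fun h _ => h, fun h => h (WithTop.coe_lt_top γ)⟩⟩
  · refine ⟨0, p.zero_mem, ⊤, fun γ _ => ?_⟩
    change γ ∈ p.b ξ ↔ Cut ⊤ (p.b 0) γ
    rw [p.b_out ξ hξ, Cut, p.b_zero]
    exact ⟨fun h => h.elim, fun h => h (WithTop.coe_lt_top γ)⟩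

/-- countably many dense downward closed sets can be met -/
theorem Cond.exists_tasks {ι : Type*} [Countable ι] (p : Cond) (T : ι → Cond → Prop)
    (hT : ∀ i q r, r ≤ q → T i q → T i r)
    (hd : ∀ i, ∀ q ≤ p, ∃ r ≤ q, T i r) : ∃ q ≤ p, ∀ i, T i q := by
  classical
  by_cases hι : Nonempty ι
  · obtain ⟨e, he⟩ := exists_surjective_nat ι
    have h1 : ∀ (q : {q : Cond // q ≤ p}) (n : ℕ), ∃ r : {q : Cond // q ≤ p},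
        r.1 ≤ q.1 ∧ T (e n) r.1 := by
      rintro ⟨q, hq⟩ n
      obtain ⟨r, hr, hr2⟩ := hd (e n) q hq
      exact ⟨⟨r, hr.trans hq⟩, hr, hr2⟩
    choose F hF1 hF2 using h1
    let f : ℕ → {q : Cond // q ≤ p} := fun n => Nat.rec ⟨p, le_rfl⟩ (fun n q => F q n) n
    have hf : ∀ n, f (n + 1) = F (f n) n := fun n => rfl
    have hanti : ∀ m n, m ≤ n → (f n).1 ≤ (f m).1 := by
      intro m n h
      induction n, h using Nat.le_induction with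
      | base => exact le_rfl
      | succ n _ ih => rw [hf]; exact (hF1 _ _).trans ih
    obtain ⟨q, hq, -⟩ := Cond.exists_lower (fun n => (f n).1) hanti
    refine ⟨q, hq 0, fun i => ?_⟩
    obtain ⟨n, rfl⟩ := he i
    refine hT _ _ _ (hq (n + 1)) ?_
    exact hF2 (f n) n
  · exact ⟨p, le_rfl, fun i => absurd ⟨i⟩ hι⟩

/-- the relevant cuts for a condition -/
def Cond.cuts (p : Cond) : Set (K × WithTop K) :=
  {x | x.1 ∈ p.E ∧ (x.2 = ⊤ ∨ ∃ γ ∈ p.C, x.2 = (γ : WithTop K))}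

theorem Cond.cuts_countable (p : Cond) : p.cuts.Countable := by
  have h : p.cuts ⊆ p.E ×ˢ (insert ⊤ ((fun γ : K => (γ : WithTop K)) '' p.C)) := by
    rintro ⟨ξ, δ⟩ ⟨h1, h2⟩
    refine ⟨h1, ?_⟩
    rcases h2 with h2 | ⟨γ, hγ, h2⟩
    · exact Or.inl h2
    · exact Or.inr ⟨γ, hγ, h2.symm⟩
  exact (p.ctE.prod ((p.ctC.image _).insert _)).mono h

/-- **Fusion.** -/
theorem Cond.exists_fusion (p : Cond) (T : K × WithTop K → Cond → Prop)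
    (hT : ∀ i q r, r ≤ q → T i q → T i r)
    (hd : ∀ i, ∀ q ≤ p, ∃ r ≤ q, T i r) : ∃ q ≤ p, ∀ i ∈ q.cuts, T i q := by
  classical
  have h1 : ∀ q : {q : Cond // q ≤ p}, ∃ r : {q : Cond // q ≤ p},
      r.1 ≤ q.1 ∧ ∀ i ∈ q.1.cuts, T i r.1 := by
    rintro ⟨q, hq⟩
    have : Countable q.cuts := q.cuts_countable.to_subtype
    obtain ⟨r, hr, h⟩ := Cond.exists_tasks (ι := q.cuts) q (fun i => T i.1)
      (fun i => hT i.1) (fun i s hs => hd i.1 s (hs.trans hq))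
    exact ⟨⟨r, hr.trans hq⟩, hr, fun i hi => h ⟨i, hi⟩⟩
  choose F hF1 hF2 using h1
  let f : ℕ → {q : Cond // q ≤ p} := fun n => Nat.rec ⟨p, le_rfl⟩ (fun _ q => F q) n
  have hf : ∀ n, f (n + 1) = F (f n) := fun n => rfl
  have hanti : ∀ m n, m ≤ n → (f n).1 ≤ (f m).1 := by
    intro m n h
    induction n, h using Nat.le_induction with
    | base => exact le_rfl
    | succ n _ ih => rw [hf]; exact (hF1 _).trans ih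
  obtain ⟨q, hq, hE, hC⟩ := Cond.exists_lower (fun n => (f n).1) hanti
  refine ⟨q, hq 0, ?_⟩
  rintro ⟨ξ, δ⟩ ⟨h1, h2⟩
  obtain ⟨n, hn⟩ := hE ξ h1
  have h3 : ∃ m, (ξ, δ) ∈ (f m).1.cuts := by
    rcases h2 with h2 | ⟨γ, hγ, h2⟩
    · exact ⟨n, hn, Or.inl h2⟩
    · obtain ⟨m, hm⟩ := hC γ hγ
      exact ⟨max m n, (hanti n _ (le_max_right m n)).2.1 hn,
        Or.inr ⟨γ, (hanti m _ (le_max_left m n)).1 hm, h2⟩⟩
  obtain ⟨m, hm⟩ := h3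
  refine hT _ _ _ (hq (m + 1)) ?_
  have := hF2 (f m) (ξ, δ) hm
  exact this

/-- every cut of a point of a stronger condition is, on the old coordinates, a relevant cut -/
theorem Cond.exists_cut {p q : Cond} (h : q ≤ p) {ξ : K} (hξ : ξ ∈ q.E) (δ : WithTop K) :
    ∃ i ∈ p.cuts, ∀ γ ∈ p.C, Cut δ (q.b ξ) γ ↔ Cut i.2 (p.b i.1) γ := by
  obtain ⟨η, hη, ε, hε⟩ := h.2.2.2 ξ hξ
  have h1 : ∃ ζ : WithTop K, (ζ = ⊤ ∨ ∃ γ ∈ p.C, ζ = (γ : WithTop K)) ∧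
      ∀ γ ∈ p.C, (γ : WithTop K) < min δ ε ↔ (γ : WithTop K) < ζ := by
    by_cases hex : ∃ γ, γ ∈ p.C ∧ min δ ε ≤ (γ : WithTop K)
    · obtain ⟨γ, ⟨hγ1, hγ2⟩, hmin⟩ := WellFounded.has_min (wellFounded_lt (α := K))
        {γ | γ ∈ p.C ∧ min δ ε ≤ (γ : WithTop K)} hex
      refine ⟨γ, Or.inr ⟨γ, hγ1, rfl⟩, fun β hβ => ⟨fun h => h.trans_le hγ2, fun h => ?_⟩⟩
      by_contra h'
      rw [not_lt] at h'
      exact hmin β ⟨hβ, h'⟩ (WithTop.coe_lt_coe.1 h)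
    · push Not at hex
      exact ⟨⊤, Or.inl rfl, fun γ hγ => ⟨fun _ => WithTop.coe_lt_top γ, fun _ => hex γ hγ⟩⟩
  obtain ⟨ζ, hζ, hζ2⟩ := h1
  refine ⟨(η, ζ), ⟨hη, hζ⟩, fun γ hγ => ?_⟩
  unfold Cut
  rw [← hζ2 γ hγ, hε γ hγ, lt_min_iff]
  unfold Cut
  tauto

/-- **Amalgamation.** -/
theorem Cond.amalg (p q : Cond) (ξp ξq : K) (hp : ξp ∈ p.E) (hq : ξq ∈ q.E) (hqp : ξq ∉ p.E)
    (hC : ∀ γ ∈ p.C, γ ∈ q.C → γ < ξp)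
    (h1 : ∀ ξ ∈ p.E, ξ ∈ q.E → ∀ γ ∈ p.C, γ ∈ q.C → (γ ∈ p.b ξ ↔ γ ∈ q.b ξ))
    (h2 : ∀ ξ ∈ p.E, ∃ η ∈ q.E, ∀ γ ∈ p.C, γ ∈ q.C → (γ ∈ p.b ξ ↔ γ ∈ q.b η))
    (h3 : ∀ η ∈ q.E, ∃ ξ ∈ p.E, ∀ γ ∈ p.C, γ ∈ q.C → (γ ∈ p.b ξ ↔ γ ∈ q.b η))
    (h4 : ∀ γ ∈ p.C, γ ∈ q.C → (γ ∈ p.b ξp ↔ γ ∈ q.b ξq)) :
    ∃ r, r ≤ p ∧ r ≤ q ∧ ∀ γ ∈ p.C, γ ∈ r.b ξq ↔ Cut (ξp : WithTop K) (p.b ξp) γ := by
  classical
  have h2' : ∀ ξ, ∃ η, ξ ∈ p.E → η ∈ q.E ∧ ∀ γ ∈ p.C, γ ∈ q.C → (γ ∈ p.b ξ ↔ γ ∈ q.b η) := by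
    intro ξ
    by_cases h : ξ ∈ p.E
    · obtain ⟨η, hη⟩ := h2 ξ h
      exact ⟨η, fun _ => hη⟩
    · exact ⟨0, fun h' => absurd h' h⟩
  have h3' : ∀ η, ∃ ξ, η ∈ q.E → ξ ∈ p.E ∧ ∀ γ ∈ p.C, γ ∈ q.C → (γ ∈ p.b ξ ↔ γ ∈ q.b η) := by
    intro η
    by_cases h : η ∈ q.E
    · obtain ⟨ξ, hξ⟩ := h3 η h
      exact ⟨ξ, fun _ => hξ⟩
    · exact ⟨0, fun h' => absurd h' h⟩
  choose f hf using h2'
  choose g hg using h3'
  let bp : K → Set K := fun ξ => if ξ ∈ p.E then p.b ξ else if ξ = ξq then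
    {γ | Cut (ξp : WithTop K) (p.b ξp) γ} else if ξ ∈ q.E then p.b (g ξ) else ∅
  let bq : K → Set K := fun ξ => if ξ ∈ q.E then q.b ξ else if ξ ∈ p.E then q.b (f ξ) else ∅
  have bp1 : ∀ ξ ∈ p.E, bp ξ = p.b ξ := fun ξ h => if_pos h
  have bp2 : bp ξq = {γ | Cut (ξp : WithTop K) (p.b ξp) γ} := by
    change (if ξq ∈ p.E then p.b ξq else if ξq = ξq then _ else _) = _
    rw [if_neg hqp, if_pos rfl]
  have bp3 : ∀ ξ ∈ q.E, ξ ∉ p.E → ξ ≠ ξq → bp ξ = p.b (g ξ) := by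
    intro ξ h h' h''
    change (if ξ ∈ p.E then p.b ξ else if ξ = ξq then _ else _) = _
    rw [if_neg h', if_neg h'', if_pos h]
  have bq1 : ∀ ξ ∈ q.E, bq ξ = q.b ξ := fun ξ h => if_pos h
  have bq2 : ∀ ξ ∈ p.E, ξ ∉ q.E → bq ξ = q.b (f ξ) := by
    intro ξ h h'
    change (if ξ ∈ q.E then q.b ξ else if ξ ∈ p.E then _ else _) = _
    rw [if_neg h', if_pos h]
  have hcut : ∀ γ ∈ p.C, γ ∈ q.C → (γ ∈ bp ξq ↔ γ ∈ p.b ξp) := by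
    intro γ hγ hγ'
    rw [bp2]
    exact ⟨fun h => h (WithTop.coe_lt_coe.2 (hC γ hγ hγ')), fun h _ => h⟩
  have hcons : ∀ ξ, ξ ∈ p.E ∨ ξ ∈ q.E → ∀ γ ∈ p.C, γ ∈ q.C → (γ ∈ bp ξ ↔ γ ∈ bq ξ) := by
    intro ξ hξ γ hγ hγ'
    by_cases hp' : ξ ∈ p.E
    · by_cases hq' : ξ ∈ q.E
      · rw [bp1 ξ hp', bq1 ξ hq']; exact h1 ξ hp' hq' γ hγ hγ'
      · rw [bp1 ξ hp', bq2 ξ hp' hq']; exact (hf ξ hp').2 γ hγ hγ'
    · have hq' : ξ ∈ q.E := hξ.resolve_left hp'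
      by_cases he : ξ = ξq
      · subst he
        rw [hcut γ hγ hγ', bq1 ξ hq']
        exact h4 γ hγ hγ'
      · rw [bp3 ξ hq' hp' he, bq1 ξ hq']
        exact (hg ξ hq').2 γ hγ hγ'
  let B : K → Set K := fun ξ => {γ | (γ ∈ p.C ∧ γ ∈ bp ξ) ∨ (γ ∈ q.C ∧ γ ∈ bq ξ)}
  have B1 : ∀ ξ, ξ ∈ p.E ∨ ξ ∈ q.E → ∀ γ ∈ p.C, (γ ∈ B ξ ↔ γ ∈ bp ξ) := by
    intro ξ hξ γ hγ
    constructor
    · rintro (⟨_, h⟩ | ⟨h, h'⟩)
      · exact h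
      · exact (hcons ξ hξ γ hγ h).2 h'
    · intro h
      exact Or.inl ⟨hγ, h⟩
  have B2 : ∀ ξ, ξ ∈ p.E ∨ ξ ∈ q.E → ∀ γ ∈ q.C, (γ ∈ B ξ ↔ γ ∈ bq ξ) := by
    intro ξ hξ γ hγ
    constructor
    · rintro (⟨h, h'⟩ | ⟨_, h⟩)
      · exact (hcons ξ hξ γ h hγ).1 h'
      · exact h
    · intro h
      exact Or.inr ⟨hγ, h⟩
  have top_cut : ∀ (y : Set K) (γ : K), γ ∈ y ↔ Cut ⊤ y γ := fun y γ =>
    ⟨fun h _ => h, fun h => h (WithTop.coe_lt_top γ)⟩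
  refine ⟨{ C := p.C ∪ q.C, E := p.E ∪ q.E, b := B, ctC := p.ctC.union q.ctC,
            ctE := p.ctE.union q.ctE, zero_mem := Or.inl p.zero_mem, b_zero := ?_, b_sub := ?_,
            b_out := ?_ },
    ⟨subset_union_left, subset_union_left, ?_, ?_⟩,
    ⟨subset_union_right, subset_union_right, ?_, ?_⟩, ?_⟩
  · ext γ
    constructor
    · rintro (⟨_, h⟩ | ⟨_, h⟩)
      · rw [bp1 0 p.zero_mem, p.b_zero] at h; exact h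
      · rw [bq1 0 q.zero_mem, q.b_zero] at h; exact h
    · intro h; exact h.elim
  · rintro ξ γ (⟨h, _⟩ | ⟨h, _⟩)
    · exact Or.inl h
    · exact Or.inr h
  · intro ξ hξ
    have hp' : ξ ∉ p.E := fun h => hξ (Or.inl h)
    have hq' : ξ ∉ q.E := fun h => hξ (Or.inr h)
    have hne : ξ ≠ ξq := fun h => hq' (h ▸ hq)
    have e1 : bp ξ = ∅ := by
      change (if ξ ∈ p.E then p.b ξ else if ξ = ξq then _ else _) = _
      rw [if_neg hp', if_neg hne, if_neg hq']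
    have e2 : bq ξ = ∅ := by
      change (if ξ ∈ q.E then q.b ξ else if ξ ∈ p.E then _ else _) = _
      rw [if_neg hq', if_neg hp']
    ext γ
    constructor
    · rintro (⟨_, h⟩ | ⟨_, h⟩)
      · rw [e1] at h; exact h
      · rw [e2] at h; exact h
    · intro h; exact h.elim
  · intro ξ hξ γ hγ
    change γ ∈ B ξ ↔ _
    rw [B1 ξ (Or.inl hξ) γ hγ, bp1 ξ hξ]
  · intro ξ hξ
    change ∃ η ∈ p.E, ∃ δ, ∀ γ ∈ p.C, γ ∈ B ξ ↔ Cut δ (p.b η) γ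
    by_cases hp' : ξ ∈ p.E
    · exact ⟨ξ, hp', ⊤, fun γ hγ => by rw [B1 ξ hξ γ hγ, bp1 ξ hp']; exact top_cut _ _⟩
    · have hq' : ξ ∈ q.E := hξ.resolve_left hp'
      by_cases he : ξ = ξq
      · refine ⟨ξp, hp, ξp, fun γ hγ => ?_⟩
        rw [B1 ξ hξ γ hγ, he, bp2]
        rfl
      · exact ⟨g ξ, (hg ξ hq').1, ⊤, fun γ hγ => by
          rw [B1 ξ hξ γ hγ, bp3 ξ hq' hp' he]; exact top_cut _ _⟩
  · intro ξ hξ γ hγ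
    change γ ∈ B ξ ↔ _
    rw [B2 ξ (Or.inr hξ) γ hγ, bq1 ξ hξ]
  · intro ξ hξ
    change ∃ η ∈ q.E, ∃ δ, ∀ γ ∈ q.C, γ ∈ B ξ ↔ Cut δ (q.b η) γ
    by_cases hq' : ξ ∈ q.E
    · exact ⟨ξ, hq', ⊤, fun γ hγ => by rw [B2 ξ hξ γ hγ, bq1 ξ hq']; exact top_cut _ _⟩
    · have hp' : ξ ∈ p.E := hξ.resolve_right hq'
      exact ⟨f ξ, (hf ξ hp').1, ⊤, fun γ hγ => by
        rw [B2 ξ hξ γ hγ, bq2 ξ hp' hq']; exact top_cut _ _⟩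
  · intro γ hγ
    change γ ∈ B ξq ↔ _
    rw [B1 ξq (Or.inr hq) γ hγ, bp2]
    rfl

end H2.DG
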