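import Pool.Agent.H85.Forcing.OSDefs

/-!
# Topological spaces inside a model of set theory

All notions are relativized to a structure `(M, E)`; `E x y` is read `x ∈ y`. `IsZFC`, `Rel`
(`(x, y) ∈ r`), `MapsOnto` and `IsSucc` come from `Pool.Agent.H85.Forcing.Defs` and
`Pool.Agent.H85.Forcing.OSDefs`.
-/

namespace H2.DG

open H85.Forcing

variable {M : Type*} (E : M → M → Prop)

/-- `w` is inductive: `∅ ∈ w`, and `y ∪ {y} ∈ w` for all `y ∈ w` -/
def IsInd (w : M) : Prop :=
  (∃ e, E e w ∧ ∀ z, ¬ E z e) ∧ ∀ y, E y w → ∃ s, E s w ∧ IsSucc E y s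

/-- `w = ω`: the least inductive set -/
def IsOmega (w : M) : Prop := IsInd E w ∧ ∀ v, IsInd E v → ∀ y, E y w → E y v

/-- `s` is a countable set: there is a function on (a part of) `ω` whose range contains `s` -/
def IsCtbl (s : M) : Prop := ∃ w, IsOmega E w ∧ ∃ f, MapsOnto E f w s

/-- `t` is a topology on the set `X`: a family of subsets of `X` which contains `X` and is closed
under intersections of two members and under unions of arbitrary subfamilies -/
def IsTopology (X t : M) : Prop :=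
  (∀ u, E u t → ∀ x, E x u → E x X) ∧
  E X t ∧
  (∀ u, E u t → ∀ v, E v t → ∃ w, E w t ∧ ∀ x, E x w ↔ E x u ∧ E x v) ∧
  ∀ s, (∀ u, E u s → E u t) → ∃ w, E w t ∧ ∀ x, E x w ↔ ∃ u, E u s ∧ E x u

/-- `T₁`: for all points `x ≠ y` some open set contains `x` and not `y` -/
def IsT1 (X t : M) : Prop :=
  ∀ x, E x X → ∀ y, E y X → x ≠ y → ∃ u, E u t ∧ E x u ∧ ¬ E y u

/-- regularity: if `x ∈ u` with `u` open, there are disjoint open sets `v ∋ x` and
`w ⊇ X \ u` -/
def IsReg (X t : M) : Prop :=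
  ∀ x, E x X → ∀ u, E u t → E x u →
    ∃ v, E v t ∧ E x v ∧ ∃ w, E w t ∧ (∀ z, E z v → ¬ E z w) ∧ ∀ z, E z X → E z u ∨ E z w

/-- `P`-space: the intersection (in `X`) of every countable family of open sets is open -/
def IsPSpace (X t : M) : Prop :=
  ∀ s, IsCtbl E s → (∀ u, E u s → E u t) →
    ∃ w, E w t ∧ ∀ x, E x w ↔ E x X ∧ ∀ u, E u s → E x u

/-- Lindelöf: every open cover has a countable subcover -/
def IsLindelof (X t : M) : Prop :=
  ∀ s, (∀ u, E u s → E u t) → (∀ x, E x X → ∃ u, E u s ∧ E x u) →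
    ∃ r, IsCtbl E r ∧ (∀ u, E u r → E u s) ∧ ∀ x, E x X → ∃ u, E u r ∧ E x u

/-- `D` is discrete: every point of `D` has an open neighbourhood that meets `D` only in that
point -/
def IsDiscrete (t D : M) : Prop :=
  ∀ x, E x D → ∃ u, E u t ∧ E x u ∧ ∀ y, E y u → E y D → y = x

/-- `x` is in the closure of `A`: every open neighbourhood of `x` meets `A` -/
def InCl (t A x : M) : Prop := ∀ u, E u t → E x u → ∃ y, E y u ∧ E y A

/-- `(X, t)` is discretely generated: for all `A ⊆ X` and `x` in the closure of `A` there is a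
discrete `D ⊆ A` with `x` in the closure of `D` -/
def IsDG (X t : M) : Prop :=
  ∀ A, (∀ a, E a A → E a X) → ∀ x, E x X → InCl E t A x →
    ∃ D, (∀ d, E d D → E d A) ∧ IsDiscrete E t D ∧ InCl E t D x

end H2.DG
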