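import Pool.Agent.H85.Forcing.OSLos
import Pool.Agent.H2.DG.TopDefs

/-!
# Boolean values of the notions of `TopDefs`, and transfer to the quotient model
-/

universe u

namespace H2.DG
open H85.Forcing H85.Forcing.BN

variable {B : Type u} [CompleteBooleanAlgebra B]

def isIndB (w : BN B) : B :=
  (⨆ e, mem e w ⊓ ⨅ z, (mem z e)ᶜ) ⊓ ⨅ y, mem y w ⇨ ⨆ s, mem s w ⊓ isSuccB y s

def isOmegaB (w : BN B) : B := isIndB w ⊓ ⨅ v, isIndB v ⇨ ⨅ y, mem y w ⇨ mem y v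

def isCtblB (s : BN B) : B := ⨆ w, isOmegaB w ⊓ ⨆ f, mapsOntoB f w s

def isTopologyB (X t : BN B) : B :=
  (⨅ u, mem u t ⇨ ⨅ x, mem x u ⇨ mem x X) ⊓
  (mem X t ⊓
  ((⨅ u, mem u t ⇨ ⨅ v, mem v t ⇨ ⨆ w, mem w t ⊓
      ⨅ x, (mem x w ⇨ mem x u ⊓ mem x v) ⊓ (mem x u ⊓ mem x v ⇨ mem x w)) ⊓
  (⨅ s, (⨅ u, mem u s ⇨ mem u t) ⇨ ⨆ w, mem w t ⊓
      ⨅ x, (mem x w ⇨ ⨆ u, mem u s ⊓ mem x u) ⊓ ((⨆ u, mem u s ⊓ mem x u) ⇨ mem x w))))

def isT1B (X t : BN B) : B :=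
  ⨅ x, mem x X ⇨ ⨅ y, mem y X ⇨ ((beq x y)ᶜ ⇨ ⨆ u, mem u t ⊓ (mem x u ⊓ (mem y u)ᶜ))

def isRegB (X t : BN B) : B :=
  ⨅ x, mem x X ⇨ ⨅ u, mem u t ⇨ (mem x u ⇨
    ⨆ v, mem v t ⊓ (mem x v ⊓ ⨆ w, mem w t ⊓ ((⨅ z, mem z v ⇨ (mem z w)ᶜ) ⊓
      ⨅ z, mem z X ⇨ mem z u ⊔ mem z w)))

def isPSpaceB (X t : BN B) : B :=
  ⨅ s, isCtblB s ⇨ ((⨅ u, mem u s ⇨ mem u t) ⇨ ⨆ w, mem w t ⊓
    ⨅ x, (mem x w ⇨ mem x X ⊓ ⨅ u, mem u s ⇨ mem x u) ⊓
      (mem x X ⊓ (⨅ u, mem u s ⇨ mem x u) ⇨ mem x w))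

def isLindelofB (X t : BN B) : B :=
  ⨅ s, (⨅ u, mem u s ⇨ mem u t) ⇨ ((⨅ x, mem x X ⇨ ⨆ u, mem u s ⊓ mem x u) ⇨
    ⨆ r, isCtblB r ⊓ ((⨅ u, mem u r ⇨ mem u s) ⊓ ⨅ x, mem x X ⇨ ⨆ u, mem u r ⊓ mem x u))

def isDiscreteB (t D : BN B) : B :=
  ⨅ x, mem x D ⇨ ⨆ u, mem u t ⊓ (mem x u ⊓ ⨅ y, mem y u ⇨ (mem y D ⇨ beq y x))

def inClB (t A x : BN B) : B := ⨅ u, mem u t ⇨ (mem x u ⇨ ⨆ y, mem y u ⊓ mem y A)

def isDGB (X t : BN B) : B :=
  ⨅ A, (⨅ a, mem a A ⇨ mem a X) ⇨ ⨅ x, mem x X ⇨ (inClB t A x ⇨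
    ⨆ D, (⨅ d, mem d D ⇨ mem d A) ⊓ (isDiscreteB t D ⊓ inClB t D x))

instance extC_isIndB {f : BN B → BN B} [CongC f] : ExtC (fun t => isIndB (f t)) :=
  ⟨by unfold isIndB; exact ExtC.h⟩

instance : ExtC (isIndB : BN B → B) := ⟨(extC_isIndB (f := fun t => t)).h⟩

instance extC_isOmegaB {f : BN B → BN B} [CongC f] : ExtC (fun t => isOmegaB (f t)) :=
  ⟨by unfold isOmegaB; exact ExtC.h⟩

instance : ExtC (isOmegaB : BN B → B) := ⟨(extC_isOmegaB (f := fun t => t)).h⟩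

instance extC_isCtblB {f : BN B → BN B} [CongC f] : ExtC (fun t => isCtblB (f t)) :=
  ⟨by unfold isCtblB; exact ExtC.h⟩

instance : ExtC (isCtblB : BN B → B) := ⟨(extC_isCtblB (f := fun t => t)).h⟩

instance extC_isTopologyB {f k : BN B → BN B} [CongC f] [CongC k] :
    ExtC (fun t => isTopologyB (f t) (k t)) :=
  ⟨by unfold isTopologyB; exact ExtC.h⟩

instance extC_isT1B {f k : BN B → BN B} [CongC f] [CongC k] :
    ExtC (fun t => isT1B (f t) (k t)) :=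
  ⟨by unfold isT1B; exact ExtC.h⟩

instance extC_isRegB {f k : BN B → BN B} [CongC f] [CongC k] :
    ExtC (fun t => isRegB (f t) (k t)) :=
  ⟨by unfold isRegB; exact ExtC.h⟩

instance extC_isPSpaceB {f k : BN B → BN B} [CongC f] [CongC k] :
    ExtC (fun t => isPSpaceB (f t) (k t)) :=
  ⟨by unfold isPSpaceB; exact ExtC.h⟩

instance extC_isLindelofB {f k : BN B → BN B} [CongC f] [CongC k] :
    ExtC (fun t => isLindelofB (f t) (k t)) :=
  ⟨by unfold isLindelofB; exact ExtC.h⟩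

instance extC_isDiscreteB {f k : BN B → BN B} [CongC f] [CongC k] :
    ExtC (fun t => isDiscreteB (f t) (k t)) :=
  ⟨by unfold isDiscreteB; exact ExtC.h⟩

instance (a : BN B) : ExtC (isDiscreteB a) :=
  ⟨(extC_isDiscreteB (f := fun _ => a) (k := fun t => t)).h⟩

instance extC_inClB {f k l : BN B → BN B} [CongC f] [CongC k] [CongC l] :
    ExtC (fun t => inClB (f t) (k t) (l t)) :=
  ⟨by unfold inClB; exact ExtC.h⟩

instance (a b : BN B) : ExtC (inClB a b) :=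
  ⟨(extC_inClB (f := fun _ => a) (k := fun _ => b) (l := fun t => t)).h⟩

instance extC_isDGB {f k : BN B → BN B} [CongC f] [CongC k] :
    ExtC (fun t => isDGB (f t) (k t)) :=
  ⟨by unfold isDGB; exact ExtC.h⟩

/-! ### transfer -/

variable (U : Ult B)

set_option linter.unusedSimpArgs false

theorem isInd_iff (w : BN B) : IsInd (ME U) (cl U w) ↔ U.T (isIndB w) := by
  simp only [IsInd, isIndB, T_iInf', T_iSup', U.inf, U.sup, U.himp, U.compl,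
    cl_forall U, cl_exists U, ME_cl, cl_eq, isSucc_iff]

theorem isOmega_iff (w : BN B) : IsOmega (ME U) (cl U w) ↔ U.T (isOmegaB w) := by
  simp only [IsOmega, isOmegaB, T_iInf', T_iSup', U.inf, U.sup, U.himp, U.compl,
    cl_forall U, cl_exists U, ME_cl, cl_eq, isInd_iff]

theorem isCtbl_iff (s : BN B) : IsCtbl (ME U) (cl U s) ↔ U.T (isCtblB s) := by
  simp only [IsCtbl, isCtblB, T_iInf', T_iSup', U.inf, U.sup, U.himp, U.compl,
    cl_forall U, cl_exists U, ME_cl, cl_eq, isOmega_iff, mapsOnto_iff]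

theorem isTopology_iff (X t : BN B) :
    IsTopology (ME U) (cl U X) (cl U t) ↔ U.T (isTopologyB X t) := by
  simp only [IsTopology, isTopologyB, T_iInf', T_iSup', U.inf, U.sup, U.himp, U.compl,
    cl_forall U, cl_exists U, ME_cl, cl_eq, iff_iff_implies_and_implies]

theorem isT1_iff (X t : BN B) : IsT1 (ME U) (cl U X) (cl U t) ↔ U.T (isT1B X t) := by
  simp only [IsT1, isT1B, T_iInf', T_iSup', U.inf, U.sup, U.himp, U.compl,
    cl_forall U, cl_exists U, ME_cl, cl_eq, ne_eq, iff_iff_implies_and_implies]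

theorem isReg_iff (X t : BN B) : IsReg (ME U) (cl U X) (cl U t) ↔ U.T (isRegB X t) := by
  simp only [IsReg, isRegB, T_iInf', T_iSup', U.inf, U.sup, U.himp, U.compl,
    cl_forall U, cl_exists U, ME_cl, cl_eq, iff_iff_implies_and_implies]

theorem isPSpace_iff (X t : BN B) :
    IsPSpace (ME U) (cl U X) (cl U t) ↔ U.T (isPSpaceB X t) := by
  simp only [IsPSpace, isPSpaceB, T_iInf', T_iSup', U.inf, U.sup, U.himp, U.compl,
    cl_forall U, cl_exists U, ME_cl, cl_eq, iff_iff_implies_and_implies, isCtbl_iff]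

theorem isLindelof_iff (X t : BN B) :
    IsLindelof (ME U) (cl U X) (cl U t) ↔ U.T (isLindelofB X t) := by
  simp only [IsLindelof, isLindelofB, T_iInf', T_iSup', U.inf, U.sup, U.himp, U.compl,
    cl_forall U, cl_exists U, ME_cl, cl_eq, iff_iff_implies_and_implies, isCtbl_iff]

theorem isDiscrete_iff (t D : BN B) :
    IsDiscrete (ME U) (cl U t) (cl U D) ↔ U.T (isDiscreteB t D) := by
  simp only [IsDiscrete, isDiscreteB, T_iInf', T_iSup', U.inf, U.sup, U.himp, U.compl,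
    cl_forall U, cl_exists U, ME_cl, cl_eq, iff_iff_implies_and_implies]

theorem inCl_iff (t A x : BN B) :
    InCl (ME U) (cl U t) (cl U A) (cl U x) ↔ U.T (inClB t A x) := by
  simp only [InCl, inClB, T_iInf', T_iSup', U.inf, U.sup, U.himp, U.compl,
    cl_forall U, cl_exists U, ME_cl, cl_eq, iff_iff_implies_and_implies]

theorem isDG_iff (X t : BN B) : IsDG (ME U) (cl U X) (cl U t) ↔ U.T (isDGB X t) := by
  simp only [IsDG, isDGB, T_iInf', T_iSup', U.inf, U.sup, U.himp, U.compl,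
    cl_forall U, cl_exists U, ME_cl, cl_eq, iff_iff_implies_and_implies, inCl_iff, isDiscrete_iff]

end H2.DG
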