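import Pool.Agent.H2.DG.Delta
import Pool.Agent.H2.DG.TopLos

/-!
# The names of the space and of its topology
-/

open Set Ordinal

namespace H2.DG
open H85.Forcing H85.Forcing.BN H85.Forcing.RO

/-- names over the forcing notion -/
abbrev Nm : Type 2 := BN (RO Cond)

/-- indices of points -/
abbrev I : Type 1 := K × WithTop K

/-- the point with index `(ξ, δ)`: the cut at `δ` of the generic set `b ξ` -/
def xR (i : I) (γ : K) : RO Cond :=
  regl fun p => i.1 ∈ p.E ∧ γ ∈ p.C ∧ Cut i.2 (p.b i.1) γ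

theorem forces_xR {p : Cond} {i : I} {γ : K} (hi : i.1 ∈ p.E) (hγ : γ ∈ p.C) :
    p ∈ xR i γ ↔ Cut i.2 (p.b i.1) γ := by
  unfold xR
  rw [forces_regl]
  constructor
  · intro h
    obtain ⟨r, hr, s, ⟨h1, h2, h3⟩, hrs⟩ := h p le_rfl
    unfold Cut at h3 ⊢
    rw [← Cond.mem_b hr hi hγ, Cond.mem_b hrs h1 h2]
    exact h3
  · intro h q hq
    refine ⟨q, le_rfl, q, ⟨hq.2.1 hi, hq.1 hγ, ?_⟩, le_rfl⟩
    unfold Cut at h ⊢
    rw [Cond.mem_b hq hi hγ]
    exact h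

/-- the name of the point with index `i` -/
noncomputable def xN (i : I) : Nm := setN (xR i)

theorem mem_xN (i : I) (γ : K) : mem (ordN γ) (xN i) = xR i γ := mem_setN _ _

/-- the name of the set of points -/
noncomputable def XN : Nm := mk I xN (fun _ => ⊤)

theorem ball_XN {φ : Nm → RO Cond} [hφ : ExtC φ] : (⨅ x, mem x XN ⇨ φ x) = ⨅ i, φ (xN i) := by
  rw [XN, ball_mk hφ.h]; simp

theorem mem_xN_XN (i : I) : mem (xN i) XN = ⊤ :=
  top_le_iff.1 (le_mem_mk I xN (fun _ => ⊤) i)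

/-- `x` and `y` agree on `c` -/
noncomputable def ag (c : Set K) (x y : Nm) : RO Cond :=
  ⨅ γ : c, (mem (ordN γ.1) x ⇨ mem (ordN γ.1) y) ⊓ (mem (ordN γ.1) y ⇨ mem (ordN γ.1) x)

instance extC_ag {c : Set K} {f k : Nm → Nm} [CongC f] [CongC k] :
    ExtC (fun t => ag c (f t) (k t)) :=
  ⟨by unfold ag; exact ExtC.h⟩

instance extC_ag_eta {c : Set K} {a : Nm} : ExtC (ag c a) :=
  ⟨(extC_ag (f := fun _ => a) (k := fun t => t)).h⟩

theorem ag_symm {c : Set K} {x y : Nm} : ag c x y = ag c y x := by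
  unfold ag
  exact iInf_congr fun γ => inf_comm _ _

theorem forces_ag {p : Cond} {c : Set K} (hc : c ⊆ p.C) {i j : I} (hi : i.1 ∈ p.E)
    (hj : j.1 ∈ p.E) :
    p ∈ ag c (xN i) (xN j) ↔ ∀ γ ∈ c, (Cut i.2 (p.b i.1) γ ↔ Cut j.2 (p.b j.1) γ) := by
  unfold ag
  rw [forces_iInf]
  constructor
  · intro h γ hγ
    have h1 := h ⟨γ, hγ⟩
    rw [forces_inf, forces_himp, forces_himp, mem_xN, mem_xN] at h1
    rw [← forces_xR hi (hc hγ), ← forces_xR hj (hc hγ)]
    exact ⟨h1.1 p le_rfl, h1.2 p le_rfl⟩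
  · rintro h ⟨γ, hγ⟩
    rw [forces_inf, forces_himp, forces_himp, mem_xN, mem_xN]
    constructor
    · intro q hq h1
      rw [forces_xR (hq.2.1 hi) (hq.1 (hc hγ))] at h1
      rw [forces_xR (hq.2.1 hj) (hq.1 (hc hγ))]
      have h2 := h γ hγ
      unfold Cut at h1 h2 ⊢
      rw [Cond.mem_b hq hi (hc hγ)] at h1
      rw [Cond.mem_b hq hj (hc hγ)]
      exact h2.1 h1
    · intro q hq h1
      rw [forces_xR (hq.2.1 hj) (hq.1 (hc hγ))] at h1
      rw [forces_xR (hq.2.1 hi) (hq.1 (hc hγ))]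
      have h2 := h γ hγ
      unfold Cut at h1 h2 ⊢
      rw [Cond.mem_b hq hj (hc hγ)] at h1
      rw [Cond.mem_b hq hi (hc hγ)]
      exact h2.2 h1

/-- countable subsets of `K` in the ground model -/
abbrev Ct : Type 1 := {c : Set K // c.Countable}

/-- the value of: `U` is open -/
noncomputable def openB (U : Nm) : RO Cond :=
  ⨅ x, mem x XN ⇨ (mem x U ⇨ ⨆ c : Ct, ⨅ y, mem y XN ⇨ (ag c.1 x y ⇨ mem y U))

instance extC_openB {f : Nm → Nm} [CongC f] : ExtC (fun t => openB (f t)) :=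
  ⟨by unfold openB; exact ExtC.h⟩

instance : ExtC (openB : Nm → RO Cond) := ⟨(extC_openB (f := fun t => t)).h⟩

/-- the name of the topology -/
noncomputable def tN : Nm :=
  mk (I → RO Cond) (fun f => mk I xN f) (fun f => sub (mk I xN f) XN ⊓ openB (mk I xN f))

theorem mem_tN (U : Nm) : mem U tN = sub U XN ⊓ openB U := by
  have h := mem_sep (ι := I → RO Cond) (A := fun f => mk I xN f)
    (b := fun f => sub (mk I xN f) XN) (φ := openB) ExtC.h U
  have h2 : mem U (mk (I → RO Cond) (fun f => mk I xN f) (fun f => sub (mk I xN f) XN)) =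
      sub U XN := mem_powN U XN
  rw [tN, h, h2]

/-- the subspace of all points satisfying `φ` -/
noncomputable def sepX (φ : Nm → RO Cond) : Nm := mk I xN (fun i => φ (xN i))

theorem mem_sepX (φ : Nm → RO Cond) [hφ : ExtC φ] (z : Nm) :
    mem z (sepX φ) = mem z XN ⊓ φ z := by
  have h := mem_sep (ι := I) (A := xN) (b := fun _ => ⊤) (φ := φ) hφ.h z
  simp only [top_inf_eq] at h
  exact h

theorem mem_sepX_xN (φ : Nm → RO Cond) [hφ : ExtC φ] (i : I) :
    mem (xN i) (sepX φ) = φ (xN i) := by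
  rw [mem_sepX, mem_xN_XN, top_inf_eq]

theorem sub_sepX (φ : Nm → RO Cond) [hφ : ExtC φ] : sub (sepX φ) XN = ⊤ := by
  rw [eq_top_iff]
  refine sub_intro fun z => ?_
  rw [mem_sepX, top_inf_eq]
  exact inf_le_left

theorem mem_sepX_tN (φ : Nm → RO Cond) [hφ : ExtC φ] :
    mem (sepX φ) tN = openB (sepX φ) := by
  rw [mem_tN, sub_sepX, top_inf_eq]

/-- `p` forces that the basic neighbourhood `[xN i | c]` is contained in `U` -/
def NbIn (p : Cond) (c : Set K) (i : I) (U : Nm) : Prop :=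
  ∀ j, ∀ q ≤ p, q ∈ ag c (xN i) (xN j) → q ∈ mem (xN j) U

theorem NbIn.down {p q : Cond} (hq : q ≤ p) {c : Set K} {i : I} {U : Nm} (h : NbIn p c i U) :
    NbIn q c i U := fun j r hr h1 => h j r (hr.trans hq) h1

theorem ag_mono {p : Cond} {c d : Set K} (h : c ⊆ d) {x y : Nm} (hp : p ∈ ag d x y) :
    p ∈ ag c x y := by
  unfold ag at hp ⊢
  rw [forces_iInf] at hp ⊢
  exact fun γ => hp ⟨γ.1, h γ.2⟩

theorem NbIn.mono {p : Cond} {c d : Set K} (hc : c ⊆ d) {i : I} {U : Nm} (h : NbIn p c i U) :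
    NbIn p d i U := fun j r hr h1 => h j r hr (ag_mono hc h1)

theorem forces_openB {p : Cond} {U : Nm} : p ∈ openB U ↔
    ∀ i, ∀ q ≤ p, q ∈ mem (xN i) U → ∀ q' ≤ q, ∃ r ≤ q', ∃ c : Ct, NbIn r c.1 i U := by
  unfold openB
  rw [ball_XN, forces_iInf]
  refine forall_congr' fun i => ?_
  rw [forces_himp]
  refine forall_congr' fun q => forall_congr' fun _ => forall_congr' fun _ => ?_
  rw [forces_iSup]
  refine forall_congr' fun q' => forall_congr' fun _ => ?_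
  refine exists_congr fun r => and_congr_right fun _ => exists_congr fun c => ?_
  rw [ball_XN, forces_iInf]
  rfl

theorem forces_sub {p : Cond} {U V : Nm} :
    p ∈ sub U V ↔ ∀ z, ∀ q ≤ p, q ∈ mem z U → q ∈ mem z V := by
  unfold BN.sub
  rw [forces_iInf]
  rfl

theorem forces_mem_XN {p : Cond} {z : Nm} :
    p ∈ mem z XN ↔ ∀ q ≤ p, ∃ r ≤ q, ∃ i, r ∈ beq z (xN i) := by
  rw [XN, mem_mk, forces_iSup]
  simp only [top_inf_eq]

theorem congr_left {p : Cond} {x y z : Nm} (h : p ∈ beq x y) (h' : p ∈ mem x z) : p ∈ mem y z :=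
  le_iff_forces.1 (mem_congr_left (z := z) (g := beq x y ⊓ mem x z) inf_le_left inf_le_right) p
    ⟨h, h'⟩

theorem congr_symm {p : Cond} {x y : Nm} (h : p ∈ beq x y) : p ∈ beq y x := by
  rwa [beq_symm]

theorem congr_right {p : Cond} {x y z : Nm} (h : p ∈ beq y z) (h' : p ∈ mem x y) : p ∈ mem x z :=
  le_iff_forces.1 (mem_congr_right (g := beq y z ⊓ mem x y) inf_le_left inf_le_right) p
    ⟨h, h'⟩

theorem congr_ext {p : Cond} {x y : Nm} (φ : Nm → RO Cond) [hφ : ExtC φ] (h : p ∈ beq x y)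
    (h' : p ∈ φ x) : p ∈ φ y :=
  le_iff_forces.1 (hφ.h x y) p ⟨h, h'⟩

/-- basic clopen sets are open -/
theorem open_nb (p : Cond) {c : Set K} (hc : c.Countable) (i : I) :
    p ∈ mem (sepX (fun z => ag c (xN i) z)) tN := by
  rw [mem_sepX_tN, forces_openB]
  intro j q _ hq q' hq'
  rw [mem_sepX_xN] at hq
  refine ⟨q', le_rfl, ⟨c, hc⟩, fun l r hr h => ?_⟩
  rw [mem_sepX_xN]
  have h1 : r ∈ ag c (xN i) (xN j) := hq.down (hr.trans hq')
  unfold ag at h1 h ⊢
  rw [forces_iInf] at h1 h ⊢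
  intro γ
  have h2 := h1 γ
  have h3 := h γ
  rw [forces_inf, forces_himp, forces_himp] at h2 h3 ⊢
  exact ⟨fun s hs h => h3.1 s hs (h2.1 s hs h), fun s hs h => h2.2 s hs (h3.2 s hs h)⟩

theorem open_nb_compl (p : Cond) {c : Set K} (hc : c.Countable) (i : I) :
    p ∈ mem (sepX (fun z => (ag c (xN i) z)ᶜ)) tN := by
  rw [mem_sepX_tN, forces_openB]
  intro j q _ hq q' hq'
  rw [mem_sepX_xN] at hq
  refine ⟨q', le_rfl, ⟨c, hc⟩, fun l r hr h => ?_⟩
  rw [mem_sepX_xN, forces_compl]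
  intro s hs hsl
  refine forces_compl.1 hq s (hs.trans (hr.trans hq')) ?_
  have h1 : s ∈ ag c (xN j) (xN l) := h.down hs
  unfold ag at h1 hsl ⊢
  rw [forces_iInf] at h1 hsl ⊢
  intro γ
  have h2 := h1 γ
  have h3 := hsl γ
  rw [forces_inf, forces_himp, forces_himp] at h2 h3 ⊢
  exact ⟨fun s hs h => h2.2 s hs (h3.1 s hs h), fun s hs h => h3.2 s hs (h2.1 s hs h)⟩

end H2.DG
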